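import Pool.Agent.Lib.MP_20855c_co.LB.Heavy
import Pool.Agent.Lib.MP_20855c_co.Mg.G005

/-!
# MP_20855c_co, large b: stage 1

`k = r + 2`, `N = r + 2 + b`, `Δ = (r + 1 + b).choose (r + 1)`, `C = (r + 2 + b).choose (r + 2)`, `k * C = N * Δ`. `γ = C - card ι ≤ (r + 2 + b).choose r ≤ (2 b) ^ r`.
-/

set_option autoImplicit false

namespace Pool.Agent.Lib.MP_20855c_co.LB

open Finset

private theorem St1_sum_dg {ι α : Type} [Fintype ι] [DecidableEq α] (D : ι → Finset α)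
    (U : Finset α) (hU : ∀ i, D i ⊆ U) : ∑ x ∈ U, dg D x = ∑ i, #(D i) := by
  have h1 : ∀ x ∈ U, dg D x = ∑ i : ι, if x ∈ D i then 1 else 0 := by
    intro x _
    rw [dg, Finset.card_filter]
  rw [Finset.sum_congr rfl h1, Finset.sum_comm]
  refine Finset.sum_congr rfl fun i _ => ?_
  rw [← Finset.card_filter]
  congr 1
  ext x
  rw [Finset.mem_filter]
  exact ⟨fun h => h.2, fun h => ⟨hU i h, h⟩⟩

/-- The algebra of the light points: the sums over `L`. -/
private theorem St1_alg {Ld Lb c γ O Δ C N h k b E q : ℝ} (hk : 2 ≤ k) (hN : N = k + b)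
    (hC : k * C = N * Δ) (hc : c = C - γ) (hh : h ≤ N) (hγ : 0 ≤ γ) (hN0 : 0 ≤ N)
    (hsum : Ld + Lb = (N - h) * c + O) (hLd : (N - h) * Δ - k * γ ≤ Ld) (hLd0 : 0 ≤ Ld)
    (hE1 : E ≤ k * (b + 1)) (hE2 : k * b + 2 * k - k ^ 2 - b / 8 ≤ E) (hb : 3 * k ^ 2 ≤ b)
    (hmain : E * (Ld * (1 - 1 / (4 * k))) ≤ k * (k - 1) * (q * γ + Lb)) :
    Ld * (b / 4) ≤ k * (k - 1) * ((q + N) * γ + O) := by
  have hk0 : 0 < k := by linarith
  -- `(N - h) c ≤ N Ld / k + N γ`
  have h1 : k * ((N - h) * c) ≤ N * (Ld + k * γ) := by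
    have h2 : (N - h) * c ≤ (N - h) * C := by
      refine mul_le_mul_of_nonneg_left ?_ (by linarith)
      linarith
    have h3 : k * ((N - h) * C) = N * ((N - h) * Δ) := by
      calc k * ((N - h) * C) = (N - h) * (k * C) := by ring
        _ = (N - h) * (N * Δ) := by rw [hC]
        _ = _ := by ring
    have h4 : N * ((N - h) * Δ) ≤ N * (Ld + k * γ) := mul_le_mul_of_nonneg_left (by linarith) hN0
    calc k * ((N - h) * c) ≤ k * ((N - h) * C) := mul_le_mul_of_nonneg_left h2 hk0.le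
      _ = N * ((N - h) * Δ) := h3
      _ ≤ _ := h4
  have h5 : k * Lb ≤ N * (Ld + k * γ) + k * O - k * Ld := by
    have : Lb = (N - h) * c + O - Ld := by linarith
    rw [this]
    calc k * ((N - h) * c + O - Ld) = k * ((N - h) * c) + k * O - k * Ld := by ring
      _ ≤ _ := by linarith
  have h6 : k * (k - 1) * (q * γ + Lb) ≤
      k * (k - 1) * q * γ + (k - 1) * (N * (Ld + k * γ) + k * O - k * Ld) := by
    have : (k - 1) * (k * Lb) ≤ (k - 1) * (N * (Ld + k * γ) + k * O - k * Ld) :=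
      mul_le_mul_of_nonneg_left h5 (by linarith)
    calc k * (k - 1) * (q * γ + Lb) = k * (k - 1) * q * γ + (k - 1) * (k * Lb) := by ring
      _ ≤ _ := by linarith
  have h7 : E * (Ld * (1 - 1 / (4 * k))) = Ld * (E - E / (4 * k)) := by
    field_simp
  have h8 : E / (4 * k) ≤ (b + 1) / 4 := by
    rw [div_le_div_iff₀ (by positivity) (by norm_num)]
    nlinarith
  have h9 : Ld * (k * b + 2 * k - k ^ 2 - b / 8 - (b + 1) / 4) ≤ Ld * (E - E / (4 * k)) :=
    mul_le_mul_of_nonneg_left (by linarith) hLd0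
  have h10 : Ld * (k * b + 2 * k - k ^ 2 - b / 8 - (b + 1) / 4) - (k - 1) * N * Ld +
      k * (k - 1) * Ld ≤ k * (k - 1) * ((q + N) * γ + O) := by
    have e1 : (k - 1) * (N * (Ld + k * γ) + k * O - k * Ld) =
        (k - 1) * N * Ld + k * (k - 1) * (N * γ + O) - k * (k - 1) * Ld := by ring
    have e2 : k * (k - 1) * ((q + N) * γ + O) = k * (k - 1) * q * γ + k * (k - 1) * (N * γ + O) := by
      ring
    rw [e2]
    rw [e1] at h6
    rw [h7] at hmain
    linarith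
  have h11 : Ld * (b / 4) ≤ Ld * (k * b + 2 * k - k ^ 2 - b / 8 - (b + 1) / 4) - (k - 1) * N * Ld +
      k * (k - 1) * Ld := by
    have e3 : Ld * (k * b + 2 * k - k ^ 2 - b / 8 - (b + 1) / 4) - (k - 1) * N * Ld +
      k * (k - 1) * Ld = Ld * (5 * b / 8 - k ^ 2 + 2 * k - 1 / 4) := by
      rw [hN]
      ring
    rw [e3]
    refine mul_le_mul_of_nonneg_left ?_ hLd0
    nlinarith
  linarith

private theorem St1_miss {ι α : Type} [Fintype ι] [DecidableEq α] {D : ι → Finset α} (k : ℕ)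
    (Y : Finset α) (hk : ∀ i, #(D i) = k) (hinj : Function.Injective D) :
    #((powersetCard k Y).filter fun T => ∀ i, D i ≠ T) + #(univ.filter fun i => D i ⊆ Y) =
      (#Y).choose k := by
  rw [← Finset.card_powersetCard, ← Finset.card_image_of_injective _ hinj]
  rw [← Finset.card_filter_add_card_filter_not (s := powersetCard k Y) (fun T => ∀ i, D i ≠ T)]
  congr 2
  ext T
  rw [Finset.mem_image, Finset.mem_filter, Finset.mem_powersetCard]
  constructor
  · rintro ⟨i, hi, rfl⟩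
    rw [Finset.mem_filter] at hi
    exact ⟨⟨hi.2, hk i⟩, fun h => h i rfl⟩
  · rintro ⟨⟨h1, h2⟩, h3⟩
    push Not at h3
    obtain ⟨i, hi⟩ := h3
    exact ⟨i, Finset.mem_filter.2 ⟨Finset.mem_univ _, by rw [hi]; exact h1⟩, hi⟩

private theorem St1_main {r b K : ℕ} {η : ℝ} {ι α : Type} [Fintype ι] [DecidableEq α]
    {D B : ι → Finset α} (h : Boll (r + 2) b D B)
    (hcd : (r + 2 + b).choose (r + 2) ≤ Fintype.card ι + (r + 2 + b).choose r)
    (hK : K = 16 ^ (r + 3) * (r + 2)) (hη : 0 < η) (hη1 : η * ((r + 2).factorial : ℝ) ≤ 1)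
    (n1 : 3 * ((r : ℝ) + 2) ^ 2 ≤ b) (n2 : r + 17 ≤ b)
    (n3 : 2 ^ (r + 2) * ((r + 2).factorial : ℝ) ≤ b)
    (n4 : 16 * ((r : ℝ) + 2) ^ 2 * (K + 1) * 2 ^ (r + 1) ≤ η * b)
    (n5 : 4 * ((r : ℝ) + 2) * 2 ^ r ≤ η * b)
    (hv : ∀ x, (r + 1 + b).choose (r + 1) ≤ K * dg D x →
      (og D B x : ℝ) ≤ η / (32 * ((r : ℝ) + 2) ^ 2) * (b : ℝ) ^ (r + 1)) :
    ∃ Y : Finset α, #Y = r + 2 + b ∧
      (#((powersetCard (r + 2) Y).filter fun T => ∀ i, D i ≠ T) : ℝ) ≤ η * (b : ℝ) ^ (r + 1) := by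
  -- real parameters
  obtain ⟨k, hk⟩ : ∃ k : ℝ, k = (r : ℝ) + 2 := ⟨_, rfl⟩
  obtain ⟨P, hP⟩ : ∃ P : ℝ, P = (b : ℝ) ^ (r + 1) := ⟨_, rfl⟩
  obtain ⟨N, hN⟩ : ∃ N : ℝ, N = k + b := ⟨_, rfl⟩
  obtain ⟨Δ, hΔ⟩ : ∃ Δ : ℝ, Δ = ((r + 1 + b).choose (r + 1) : ℕ) := ⟨_, rfl⟩
  obtain ⟨C, hC⟩ : ∃ C : ℝ, C = ((r + 2 + b).choose (r + 2) : ℕ) := ⟨_, rfl⟩
  obtain ⟨c, hc⟩ : ∃ c : ℝ, c = (Fintype.card ι : ℝ) := ⟨_, rfl⟩
  obtain ⟨γ, hγ⟩ : ∃ γ : ℝ, γ = C - c := ⟨_, rfl⟩
  obtain ⟨G, hG⟩ : ∃ G : ℝ, G = 2 ^ r * (b : ℝ) ^ r := ⟨_, rfl⟩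
  obtain ⟨θ, hθ⟩ : ∃ θ : ℝ, θ = η / (32 * k ^ 2) := ⟨_, rfl⟩
  obtain ⟨F, hF⟩ : ∃ F : ℝ, F = ((r + 2).factorial : ℝ) := ⟨_, rfl⟩
  obtain ⟨F1, hF1⟩ : ∃ F1 : ℝ, F1 = ((r + 1).factorial : ℝ) := ⟨_, rfl⟩
  rw [← hF] at hη1 n3
  rw [← hk] at n1 n4 n5 hv
  rw [← hP, ← hθ] at hv
  rw [← hP]
  have hk2 : 2 ≤ k := by
    rw [hk]
    have : (0 : ℝ) ≤ r := Nat.cast_nonneg _
    linarith
  have hbpos : (0 : ℝ) < b := by
    have : 0 < b := by omega
    exact_mod_cast this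
  have hb12 : 12 ≤ (b : ℝ) := by nlinarith
  have hPpos : 0 < P := by
    rw [hP]
    positivity
  have hF1pos : 0 < F1 := by
    rw [hF1]
    exact_mod_cast Nat.factorial_pos _
  have hFpos : 0 < F := by
    rw [hF]
    exact_mod_cast Nat.factorial_pos _
  have hFF : F = k * F1 := by
    rw [hF, hF1, hk, Nat.factorial_succ]
    push_cast
    ring
  have hkb : k ≤ b := by
    have h1 : k * 2 ≤ k * k := mul_le_mul_of_nonneg_left hk2 (by linarith only [hk2])
    have h2 : k ^ 2 = k * k := by ring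
    linarith only [n1, h1, h2, hk2]
  have hN2 : N ≤ 2 * b := by linarith only [hN, hkb]
  have hNb : (b : ℝ) ≤ N := by linarith
  have hN0 : 0 ≤ N := by linarith only [hNb, hbpos]
  have hNcast : ((r + 2 + b : ℕ) : ℝ) = N := by
    rw [hN, hk]
    push_cast
    ring
  have hKpos : (0 : ℝ) < K := by
    rw [hK]
    positivity
  have hKk : (K : ℝ) = 16 ^ (r + 3) * k := by
    rw [hK, hk]
    push_cast
    ring
  -- the binomial coefficients
  have hkC : k * C = N * Δ := by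
    have h1 := Nat.add_one_mul_choose_eq (r + 1 + b) (r + 1)
    have e1 : r + 1 + b + 1 = r + 2 + b := by omega
    have e2 : r + 1 + 1 = r + 2 := by omega
    rw [e1, e2] at h1
    have h2 : ((r + 2 + b : ℕ) : ℝ) * ((r + 1 + b).choose (r + 1) : ℕ) =
        ((r + 2 + b).choose (r + 2) : ℕ) * ((r + 2 : ℕ) : ℝ) := by exact_mod_cast h1
    rw [hNcast, ← hΔ, ← hC] at h2
    rw [h2, hk]
    push_cast
    ring
  have hΔP : P ≤ F1 * Δ := by
    have h1 : (((r + 1 + b) + 1 - (r + 1) : ℕ) : ℝ) ^ (r + 1) / ((r + 1).factorial : ℝ) ≤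
        ((r + 1 + b).choose (r + 1) : ℕ) := Nat.pow_le_choose (r + 1) (r + 1 + b)
    have e1 : (r + 1 + b) + 1 - (r + 1) = b + 1 := by omega
    rw [e1, ← hΔ, ← hF1, div_le_iff₀ hF1pos] at h1
    rw [hP, mul_comm F1 Δ]
    refine le_trans ?_ h1
    refine pow_le_pow_left₀ hbpos.le ?_ _
    push_cast
    linarith
  have hΔpos : 0 < Δ := by
    by_contra hcon
    have : F1 * Δ ≤ 0 := mul_nonpos_of_nonneg_of_nonpos hF1pos.le (not_lt.mp hcon)
    linarith
  have hCF : N * P ≤ C * F := by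
    calc N * P ≤ N * (F1 * Δ) := mul_le_mul_of_nonneg_left hΔP (by linarith)
      _ = F1 * (N * Δ) := by ring
      _ = F1 * (k * C) := by rw [hkC]
      _ = C * F := by rw [hFF]; ring
  have hcC : c ≤ C := by
    rw [hc, hC]
    exact_mod_cast boll_card h
  have hγ0 : 0 ≤ γ := by linarith
  have hγG : γ ≤ G := by
    have h1 : C ≤ c + ((r + 2 + b).choose r : ℕ) := by
      rw [hC, hc]
      exact_mod_cast hcd
    have h2 : (r + 2 + b).choose r ≤ (1 + (b + 2)) ^ r := by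
      have e1 : r + 2 + b = r + (b + 2) := by omega
      rw [e1]
      exact choose_le_pow1 r (b + 2)
    have h3 : (((r + 2 + b).choose r : ℕ) : ℝ) ≤ (1 + ((b : ℝ) + 2)) ^ r := by
      have : (((r + 2 + b).choose r : ℕ) : ℝ) ≤ (((1 + (b + 2)) ^ r : ℕ) : ℝ) := Nat.cast_le.mpr h2
      refine this.trans (le_of_eq ?_)
      push_cast
      ring
    have h4 : (1 + ((b : ℝ) + 2)) ^ r ≤ (2 * (b : ℝ)) ^ r :=
      pow_le_pow_left₀ (by positivity) (by linarith) _
    have h5 : (2 * (b : ℝ)) ^ r = G := by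
      rw [hG, mul_pow]
    linarith
  have hkG : k * G ≤ η * P / 4 := by
    have h1 : 4 * k * 2 ^ r * (b : ℝ) ^ r ≤ η * b * (b : ℝ) ^ r :=
      mul_le_mul_of_nonneg_right n5 (by positivity)
    have h2 : η * b * (b : ℝ) ^ r = η * P := by
      rw [hP, pow_succ]
      ring
    rw [h2] at h1
    rw [hG]
    linarith
  have hηΔ : η * P ≤ Δ := by
    have h1 : η * P ≤ η * (F1 * Δ) := mul_le_mul_of_nonneg_left hΔP hη.le
    have h2 : η * F1 ≤ 1 := by
      have : η * F1 ≤ η * F := by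
        refine mul_le_mul_of_nonneg_left ?_ hη.le
        rw [hFF]
        have h3 : 1 * F1 ≤ k * F1 :=
          mul_le_mul_of_nonneg_right (by linarith only [hk2]) hF1pos.le
        linarith only [h3]
      linarith only [this, hη1]
    calc η * P ≤ η * (F1 * Δ) := h1
      _ = (η * F1) * Δ := by ring
      _ ≤ 1 * Δ := mul_le_mul_of_nonneg_right h2 hΔpos.le
      _ = Δ := one_mul _
  -- the points
  classical
  obtain ⟨U, hU⟩ : ∃ U : Finset α, U = univ.biUnion fun i => D i ∪ B i := ⟨_, rfl⟩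
  have hDU : ∀ i, D i ⊆ U := by
    intro i x hx
    rw [hU, Finset.mem_biUnion]
    exact ⟨i, Finset.mem_univ _, Finset.mem_union_left _ hx⟩
  have hBU : ∀ i, B i ⊆ U := by
    intro i x hx
    rw [hU, Finset.mem_biUnion]
    exact ⟨i, Finset.mem_univ _, Finset.mem_union_right _ hx⟩
  obtain ⟨Y, hY⟩ : ∃ Y : Finset α, Y = U.filter fun x =>
    (r + 1 + b).choose (r + 1) ≤ K * dg D x := ⟨_, rfl⟩
  obtain ⟨L, hL⟩ : ∃ L : Finset α, L = U.filter fun x =>
    ¬ (r + 1 + b).choose (r + 1) ≤ K * dg D x := ⟨_, rfl⟩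
  have hsD : ∑ x ∈ Y, dg D x + td D L = Fintype.card ι * (r + 2) := by
    rw [td, hY, hL, Finset.sum_filter_add_sum_filter_not, St1_sum_dg D U hDU,
      Finset.sum_congr rfl (fun i _ => h.cD i), Finset.sum_const, Finset.card_univ, smul_eq_mul]
  have hsB : ∑ x ∈ Y, dg B x + td B L = Fintype.card ι * b := by
    rw [td, hY, hL, Finset.sum_filter_add_sum_filter_not, St1_sum_dg B U hBU,
      Finset.sum_congr rfl (fun i _ => h.cB i), Finset.sum_const, Finset.card_univ, smul_eq_mul]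
  obtain ⟨Ld, hLd⟩ : ∃ Ld : ℝ, Ld = (td D L : ℝ) := ⟨_, rfl⟩
  obtain ⟨Lb, hLb⟩ : ∃ Lb : ℝ, Lb = (td B L : ℝ) := ⟨_, rfl⟩
  obtain ⟨O, hO⟩ : ∃ O : ℝ, O = ∑ x ∈ Y, (og D B x : ℝ) := ⟨_, rfl⟩
  obtain ⟨hh, hhh⟩ : ∃ hh : ℝ, hh = (#Y : ℝ) := ⟨_, rfl⟩
  have hLd0 : 0 ≤ Ld := by
    rw [hLd]
    exact Nat.cast_nonneg _
  have hLb0 : 0 ≤ Lb := by
    rw [hLb]
    exact Nat.cast_nonneg _
  have hsD' : ∑ x ∈ Y, (dg D x : ℝ) + Ld = k * c := by
    rw [hLd, hc, hk]
    have : ((∑ x ∈ Y, dg D x + td D L : ℕ) : ℝ) = ((Fintype.card ι * (r + 2) : ℕ) : ℝ) := by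
      rw [hsD]
    push_cast at this
    linarith
  have hsB' : ∑ x ∈ Y, (dg B x : ℝ) + Lb = b * c := by
    rw [hLb, hc]
    have : ((∑ x ∈ Y, dg B x + td B L : ℕ) : ℝ) = ((Fintype.card ι * b : ℕ) : ℝ) := by
      rw [hsB]
    push_cast at this
    linarith
  have hpt : ∑ x ∈ Y, (dg D x : ℝ) + ∑ x ∈ Y, (dg B x : ℝ) + O = hh * c := by
    rw [hO, ← Finset.sum_add_distrib, ← Finset.sum_add_distrib, hhh, hc]
    have h1 : ∀ x ∈ Y, (dg D x : ℝ) + (dg B x : ℝ) + (og D B x : ℝ) = (Fintype.card ι : ℝ) := by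
      intro x _
      exact_mod_cast count_pt h x
    rw [Finset.sum_congr rfl h1, Finset.sum_const, nsmul_eq_mul]
  have hsum : Ld + Lb = (N - hh) * c + O := by
    have : N * c = k * c + b * c := by
      rw [hN]
      ring
    linarith
  have hdgY : ∑ x ∈ Y, (dg D x : ℝ) ≤ hh * Δ := by
    calc ∑ x ∈ Y, (dg D x : ℝ) ≤ ∑ _x ∈ Y, Δ := Finset.sum_le_sum fun x _ => by
          rw [hΔ]
          exact_mod_cast pt0 h x
      _ = hh * Δ := by rw [Finset.sum_const, nsmul_eq_mul, hhh]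
  have hLdlow : (N - hh) * Δ - k * γ ≤ Ld := by
    have h1 : k * c = N * Δ - k * γ := by
      rw [← hkC, hγ]
      ring
    linarith
  have hOY : O ≤ hh * (θ * P) := by
    rw [hO]
    calc ∑ x ∈ Y, (og D B x : ℝ) ≤ ∑ _x ∈ Y, θ * P := Finset.sum_le_sum fun x hx => by
          rw [hY, Finset.mem_filter] at hx
          exact hv x hx.2
      _ = hh * (θ * P) := by rw [Finset.sum_const, nsmul_eq_mul, hhh]
  have hO0 : 0 ≤ O := by
    rw [hO]
    exact Finset.sum_nonneg fun x _ => Nat.cast_nonneg _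
  have hθ0 : 0 ≤ θ := by
    rw [hθ]
    positivity
  have hθF : 128 * (θ * F) ≤ 1 := by
    have h1 : θ * (32 * k ^ 2) = η := by
      rw [hθ]
      field_simp
    have hk4 : 4 ≤ k ^ 2 := by
      calc (4 : ℝ) = 2 ^ 2 := by norm_num
        _ ≤ k ^ 2 := pow_le_pow_left₀ (by norm_num) hk2 2
    have h2 : 128 * θ ≤ η := by
      have h3 : θ * (32 * 4) ≤ θ * (32 * k ^ 2) :=
        mul_le_mul_of_nonneg_left (mul_le_mul_of_nonneg_left hk4 (by norm_num)) hθ0
      rw [h1] at h3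
      linarith only [h3]
    calc 128 * (θ * F) = (128 * θ) * F := by ring
      _ ≤ η * F := mul_le_mul_of_nonneg_right h2 hFpos.le
      _ ≤ 1 := hη1
  -- `#Y ≤ N`
  have hGF : 4 * (G * F) ≤ N * P := by
    have h1 : 4 * (G * F) = (2 ^ (r + 2) * F) * (b : ℝ) ^ r := by
      rw [hG]
      ring
    have h2 : N * P = N * b * (b : ℝ) ^ r := by
      rw [hP]
      ring
    rw [h1, h2]
    refine mul_le_mul_of_nonneg_right ?_ (by positivity)
    have h3 : 1 * (b : ℝ) ≤ N * b :=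
      mul_le_mul_of_nonneg_right (by linarith only [hNb, hb12]) hbpos.le
    linarith only [h3, n3]
  have hYN : #Y ≤ r + 2 + b := by
    by_contra hcon
    have h1 : r + 2 + b + 1 ≤ #Y := by omega
    have h2 : N + 1 ≤ hh := by
      rw [hhh, ← hNcast]
      exact_mod_cast h1
    have h3 : hh * c - O ≤ N * c := by
      have : 0 ≤ (N - hh) * c + O := by linarith
      linarith
    have h4 : hh * (c - θ * P) ≤ N * c := by
      have : hh * (c - θ * P) = hh * c - hh * (θ * P) := by ring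
      linarith
    -- `c F ≥ 3/4 N P`
    have h5 : N * P * (3 / 4) ≤ c * F := by
      have : c * F = C * F - γ * F := by
        rw [hγ]
        ring
      have h6 : γ * F ≤ G * F := mul_le_mul_of_nonneg_right hγG hFpos.le
      linarith
    have h6 : (θ * P) * F * (N + 1) ≤ N * P * (1 / 64) := by
      have h7 : (θ * F) * P * (N + 1) ≤ (1 / 128) * P * (N + 1) := by
        refine mul_le_mul_of_nonneg_right (mul_le_mul_of_nonneg_right ?_ hPpos.le) (by linarith)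
        linarith
      have h8 : (1 / 128) * P * (N + 1) ≤ N * P * (1 / 64) := by
        have : P * 1 ≤ P * N := mul_le_mul_of_nonneg_left (by linarith) hPpos.le
        linarith
      calc (θ * P) * F * (N + 1) = (θ * F) * P * (N + 1) := by ring
        _ ≤ _ := h7.trans h8
    have hNP : 0 < N * P := by
      have : 0 < N := by linarith
      positivity
    have h9 : (θ * P) * (N + 1) < c := by
      have : (θ * P) * (N + 1) * F < c * F := by
        calc (θ * P) * (N + 1) * F = (θ * P) * F * (N + 1) := by ring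
          _ ≤ N * P * (1 / 64) := h6
          _ < N * P * (3 / 4) := by linarith
          _ ≤ c * F := h5
      exact lt_of_mul_lt_mul_right this hFpos.le
    have h10 : θ * P ≤ c := by
      have : θ * P * 1 ≤ (θ * P) * (N + 1) :=
        mul_le_mul_of_nonneg_left (by linarith) (by positivity)
      linarith
    have h11 : (N + 1) * (c - θ * P) ≤ hh * (c - θ * P) :=
      mul_le_mul_of_nonneg_right h2 (by linarith)
    have h12 : (N + 1) * (c - θ * P) = N * c + c - (θ * P) * (N + 1) := by ring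
    linarith
  have hhN : hh ≤ N := by
    rw [hhh, ← hNcast]
    exact_mod_cast hYN
  -- the inequality of the light points
  obtain ⟨m, hm⟩ : ∃ m : ℕ, m = b / 8 := ⟨_, rfl⟩
  have hm1 : 1 ≤ m := by omega
  have hm8 : (m : ℝ) ≤ b / 8 := by
    have : 8 * m ≤ b := by omega
    have : 8 * (m : ℝ) ≤ b := by exact_mod_cast this
    linarith
  have hm16 : (r + 1 + b : ℕ) ≤ 16 * m := by omega
  obtain ⟨q, hq⟩ : ∃ q : ℕ, q = K * (r + 2 + b) := ⟨_, rfl⟩
  have hK1 : 1 ≤ K := by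
    rw [hK]
    exact Nat.one_le_iff_ne_zero.2 (by positivity)
  have hq1 : 1 ≤ q := by
    rw [hq]
    exact Nat.one_le_iff_ne_zero.2 (by positivity)
  have hqr : (q : ℝ) = K * N := by
    rw [hq, ← hNcast]
    push_cast
    ring
  obtain ⟨E, hE⟩ : ∃ E : ℝ, E = ((r + 2) * (b + 1) : ℕ) - (m : ℝ) - ((r + 2) * (r + 1) : ℕ) :=
    ⟨_, rfl⟩
  have hEk : E = k * (b + 1) - m - k * (k - 1) := by
    rw [hE, hk]
    push_cast
    ring
  have hE1 : E ≤ k * (b + 1) := by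
    rw [hEk]
    have : 0 ≤ (m : ℝ) := Nat.cast_nonneg _
    have h3 : 0 ≤ k * (k - 1) := mul_nonneg (by linarith only [hk2]) (by linarith only [hk2])
    linarith only [this, h3]
  have hE2 : k * b + 2 * k - k ^ 2 - b / 8 ≤ E := by
    rw [hEk]
    have h3 : k * (b + 1) - m - k * (k - 1) - (k * b + 2 * k - k ^ 2 - b / 8) = b / 8 - m := by
      ring
    linarith only [h3, hm8]
  have hE0 : 0 ≤ E := by
    have h3 : 2 * (b : ℝ) ≤ k * b := mul_le_mul_of_nonneg_right hk2 hbpos.le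
    linarith only [h3, hE2, n1, hk2, hbpos]
  have hlight := light h L (Δ / K) (fun x hx => by
    rw [hL, Finset.mem_filter] at hx
    rw [le_div_iff₀ hKpos, hΔ]
    have h1 : K * dg D x ≤ (r + 1 + b).choose (r + 1) := (not_le.mp hx.2).le
    have h2 : ((K * dg D x : ℕ) : ℝ) ≤ ((r + 1 + b).choose (r + 1) : ℕ) := Nat.cast_le.mpr h1
    push_cast at h2
    linarith) m q hm1 hq1 (by rw [← hE]; exact hE0)
  rw [← hE, hNcast, ← hC, ← hc, ← hγ, ← hLd, ← hLb, ← hF1] at hlight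
  have hkk : (((r + 2) * (r + 1) : ℕ) : ℝ) = k * (k - 1) := by
    rw [hk]
    push_cast
    ring
  rw [hkk] at hlight
  have hmpos : (0 : ℝ) < m := by exact_mod_cast hm1
  have hT : F1 / (m : ℝ) ^ (r + 1) * Δ ≤ 16 ^ (r + 1) := by
    have h1 : Δ ≤ ((r + 1 + b : ℕ) : ℝ) ^ (r + 1) / ((r + 1).factorial : ℝ) := by
      rw [hΔ]
      exact Nat.choose_le_pow_div (r + 1) (r + 1 + b)
    rw [← hF1, le_div_iff₀ hF1pos] at h1
    have h2 : ((r + 1 + b : ℕ) : ℝ) ^ (r + 1) ≤ (16 * (m : ℝ)) ^ (r + 1) := by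
      refine pow_le_pow_left₀ (Nat.cast_nonneg _) ?_ _
      exact_mod_cast hm16
    rw [div_mul_eq_mul_div, div_le_iff₀ (by positivity)]
    rw [mul_pow] at h2
    linarith
  have hT0 : 0 ≤ F1 / (m : ℝ) ^ (r + 1) := by positivity
  have hLdq : Ld / q ≤ Δ / K := by
    have hNpos : 0 < N := by linarith only [hNb, hbpos]
    rw [hqr, div_le_div_iff₀ (mul_pos hKpos hNpos) hKpos]
    have h1 : Ld ≤ k * c := by
      have : 0 ≤ ∑ x ∈ Y, (dg D x : ℝ) := Finset.sum_nonneg fun x _ => Nat.cast_nonneg _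
      linarith
    have h2 : k * c ≤ N * Δ := by
      rw [← hkC]
      exact mul_le_mul_of_nonneg_left hcC (by linarith)
    have h3 : Ld * K ≤ N * Δ * K := mul_le_mul_of_nonneg_right (h1.trans h2) hKpos.le
    linarith
  have hbr : 1 - 1 / (4 * k) ≤ 1 - N / q - F1 / (m : ℝ) ^ (r + 1) * (Δ / K + Ld / q) := by
    have hNpos : 0 < N := by linarith
    have h1 : N / q = 1 / K := by
      rw [hqr]
      field_simp
    have h16 : (1 : ℝ) ≤ 16 ^ (r + 1) := one_le_pow₀ (by norm_num)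
    have hK256 : (K : ℝ) = 256 * 16 ^ (r + 1) * k := by
      rw [hKk]
      ring
    have h2 : 1 / (K : ℝ) ≤ 1 / (256 * k) := by
      rw [hK256]
      refine one_div_le_one_div_of_le (by positivity) ?_
      have : k * 1 ≤ k * 16 ^ (r + 1) := mul_le_mul_of_nonneg_left h16 (by linarith)
      linarith
    have h3 : F1 / (m : ℝ) ^ (r + 1) * (Δ / K + Ld / q) ≤
        F1 / (m : ℝ) ^ (r + 1) * (Δ / K + Δ / K) :=
      mul_le_mul_of_nonneg_left (by linarith) hT0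
    have h4 : F1 / (m : ℝ) ^ (r + 1) * (Δ / K + Δ / K) =
        2 * (F1 / (m : ℝ) ^ (r + 1) * Δ) / K := by ring
    have h5 : 2 * (F1 / (m : ℝ) ^ (r + 1) * Δ) / K ≤ 2 * 16 ^ (r + 1) / K := by
      gcongr
    have h6 : 2 * 16 ^ (r + 1) / (K : ℝ) = 1 / (128 * k) := by
      rw [hK256]
      field_simp
      ring
    have h7 : 1 / (256 * k) + 1 / (128 * k) ≤ 1 / (4 * k) := by
      have e1 : 1 / (256 * k) = (1 / 256) * (1 / k) := by field_simp
      have e2 : 1 / (128 * k) = (1 / 128) * (1 / k) := by field_simp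
      have e3 : 1 / (4 * k) = (1 / 4) * (1 / k) := by field_simp
      rw [e1, e2, e3]
      have : 0 ≤ 1 / k := by positivity
      linarith
    rw [h1]
    linarith
  have hmain : E * (Ld * (1 - 1 / (4 * k))) ≤ k * (k - 1) * ((q : ℝ) * γ + Lb) := by
    refine le_trans ?_ hlight
    refine mul_le_mul_of_nonneg_left ?_ hE0
    exact mul_le_mul_of_nonneg_left hbr hLd0
  have halg := St1_alg (q := (q : ℝ)) hk2 hN hkC (by linarith) hhN hγ0 (by linarith) hsum hLdlow hLd0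
    hE1 hE2 n1 hmain
  -- `Ld ≤ η P / 2`
  have hLdη : Ld ≤ η * P / 2 := by
    have h1 : (q + N) * γ ≤ (K + 1) * (2 * b) * G := by
      rw [hqr]
      have e1 : ((K : ℝ) * N + N) * γ = (K + 1) * N * γ := by ring
      rw [e1]
      refine mul_le_mul ?_ hγG hγ0 (by positivity)
      exact mul_le_mul_of_nonneg_left hN2 (by positivity)
    have h2 : ((K : ℝ) + 1) * (2 * b) * G = (K + 1) * 2 ^ (r + 1) * P := by
      rw [hG, hP]
      ring
    have h3 : O ≤ 2 * b * (θ * P) := by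
      refine hOY.trans ?_
      exact mul_le_mul_of_nonneg_right (hhN.trans hN2) (by positivity)
    have h4 : k * (k - 1) * ((q + N) * γ + O) ≤
        k ^ 2 * ((K + 1) * 2 ^ (r + 1) * P + 2 * b * (θ * P)) := by
      refine mul_le_mul ?_ ?_ ?_ (by positivity)
      · have : k ^ 2 - k * (k - 1) = k := by ring
        linarith only [this, hk2]
      · rw [← h2]
        exact add_le_add h1 h3
      · have : 0 ≤ (q + N) * γ := mul_nonneg (add_nonneg (Nat.cast_nonneg q) hN0) hγ0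
        exact add_nonneg this hO0
    have h5 : k ^ 2 * (2 * b * (θ * P)) = η * b * P / 16 := by
      rw [hθ]
      field_simp
      ring
    have h6 : k ^ 2 * ((K + 1) * 2 ^ (r + 1) * P) ≤ η * b * P / 16 := by
      have : 16 * k ^ 2 * (K + 1) * 2 ^ (r + 1) * P ≤ η * b * P :=
        mul_le_mul_of_nonneg_right n4 hPpos.le
      linarith
    have h7 : Ld * (b / 4) ≤ η * b * P / 8 := by
      calc Ld * (b / 4) ≤ k * (k - 1) * ((q + N) * γ + O) := halg
        _ ≤ k ^ 2 * ((K + 1) * 2 ^ (r + 1) * P + 2 * b * (θ * P)) := h4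
        _ = k ^ 2 * ((K + 1) * 2 ^ (r + 1) * P) + k ^ 2 * (2 * b * (θ * P)) := by ring
        _ ≤ _ := by linarith
    have h8 : Ld * b ≤ η * P / 2 * b := by linarith
    exact le_of_mul_le_mul_right h8 hbpos
  have hkγ : k * γ ≤ η * P / 4 := (mul_le_mul_of_nonneg_left hγG (by linarith)).trans hkG
  -- `#Y = N`
  have hYeq : #Y = r + 2 + b := by
    have h1 : (N - hh) * Δ < Δ := by
      have : 0 < η * P := by positivity
      linarith
    have h2 : N - hh < 1 := by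
      by_contra hcon
      have : 1 * Δ ≤ (N - hh) * Δ := mul_le_mul_of_nonneg_right (not_lt.mp hcon) hΔpos.le
      linarith
    have h3 : ((r + 2 + b : ℕ) : ℝ) < ((#Y + 1 : ℕ) : ℝ) := by
      rw [hNcast]
      push_cast
      rw [← hhh]
      linarith
    have h4 : r + 2 + b < #Y + 1 := by exact_mod_cast h3
    omega
  refine ⟨Y, hYeq, ?_⟩
  have hinj : Function.Injective D := by
    intro i j hij
    by_contra hne
    have h1 := h.cross i j hne
    rw [hij] at h1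
    exact h1 (h.dis j)
  have hms := St1_miss (r + 2) Y h.cD hinj
  rw [hYeq] at hms
  have hout : #(univ.filter fun i => ¬ D i ⊆ Y) ≤ td D L := by
    rw [td]
    have h1 : ∀ x ∈ L, dg D x = ∑ i : ι, if x ∈ D i then 1 else 0 := by
      intro x _
      rw [dg, Finset.card_filter]
    rw [Finset.sum_congr rfl h1, Finset.sum_comm, Finset.card_filter]
    refine Finset.sum_le_sum fun i _ => ?_
    rw [← Finset.card_filter]
    by_cases h2 : D i ⊆ Y
    · rw [if_neg (not_not.mpr h2)]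
      exact Nat.zero_le _
    · rw [if_pos h2]
      obtain ⟨x, hx1, hx2⟩ := Finset.not_subset.1 h2
      refine Finset.card_pos.2 ⟨x, ?_⟩
      rw [Finset.mem_filter, hL, Finset.mem_filter]
      refine ⟨⟨hDU i hx1, fun h3 => hx2 ?_⟩, hx1⟩
      rw [hY, Finset.mem_filter]
      exact ⟨hDU i hx1, h3⟩
  have hsplit : #(univ.filter fun i => D i ⊆ Y) + #(univ.filter fun i => ¬ D i ⊆ Y) =
      Fintype.card ι := by
    rw [Finset.card_filter_add_card_filter_not, Finset.card_univ]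
  have hmsr : (#((powersetCard (r + 2) Y).filter fun T => ∀ i, D i ≠ T) : ℝ) +
      (#(univ.filter fun i => D i ⊆ Y) : ℝ) = C := by
    rw [hC]
    exact_mod_cast hms
  have hspr : (#(univ.filter fun i => D i ⊆ Y) : ℝ) + (#(univ.filter fun i => ¬ D i ⊆ Y) : ℝ) =
      c := by
    rw [hc]
    exact_mod_cast hsplit
  have houtr : (#(univ.filter fun i => ¬ D i ⊆ Y) : ℝ) ≤ Ld := by
    rw [hLd]
    exact_mod_cast hout
  have hγη : γ ≤ η * P / 4 := by
    have : 1 * γ ≤ k * γ := mul_le_mul_of_nonneg_right (by linarith) hγ0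
    linarith
  have : 0 < η * P := by positivity
  linarith

/-- PROOF. `K = 16 ^ (r + 3) * (r + 2)`; `Y0` = the heavy points (`Δ ≤ K * dg D x`; they lie in the union of the `D i`), `h = #Y0`, `L` = the other points of `⋃ (D i ∪ B i)`, `Ld = td D L`, `Lb = td B L`, `O = ∑ x ∈ Y0, og x`. `∑ x (dg D x + dg B x) = N card ι`, `∑ x dg D x = k card ι`. So
`Ld + Lb = (N - h) card ι + O` and `Ld ≥ k card ι - h Δ = (N - h) Δ - k γ` (reals). `h ≤ N`: otherwise `(N + 1) (card ι - θ b ^ (r + 1)) ≤ N card ι`. `light` with `q = K N`, `M0 = Δ / K`, `m = ⌊b / 8⌋`: the bracket `1 - …` is at least `1 - 1 / (4 k)`, so with `E ≥ k b - b / 8 - k ^ 2`: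
`Ld (E (1 - 1 / (4 k)) + k (k - 1) - (k - 1) N) ≤ k (k - 1) ((q + N) γ + O)` (use `(N - h) card ι ≤ (N / k) (N - h) Δ ≤ (N / k) (Ld + k γ)`), the bracket is `≥ b / 4`. So `Ld ≤ (4 k ^ 2 / b) ((q + N) γ + O)` is small compared to `b ^ (r + 1)`, then `(N - h) Δ ≤ Ld + k γ < Δ` gives `h = N`. `Y = Y0`;
the missing sets: `C - #{i | D i ⊆ Y} ≤ γ + Ld`. -/
theorem st1 (r : ℕ) (η : ℝ) (hη0 : 0 < η) (hη1 : η * ((r + 2).factorial : ℝ) ≤ 1) (K : ℕ) (hK : K = 16 ^ (r + 3) * (r + 2)) (θ : ℝ)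
    (hθ : θ = η / (32 * ((r : ℝ) + 2) ^ 2)) (b : ℕ) (hb1 : (r + 2) ^ 3 * (2 * K) ≤ b)
    (hb2 : ((r + 1).factorial : ℝ) * (4 * (K * (r + 2)) * 2 ^ r) * (2 * (4 * (K * (r + 2)) * 2 ^ r) / θ) ^ (r + 1) ≤ b)
    (hb3 : (1 + ((r : ℝ) + 2) * (r + 1)) * (2 * (4 * (K * (r + 2)) * 2 ^ r) / θ) ≤ b)
    (hb4 : 3 * ((r : ℝ) + 2) ^ 2 + ((r : ℝ) + 17) + 2 ^ (r + 2) * ((r + 2).factorial : ℝ) +
      (16 * ((r : ℝ) + 2) ^ 2 * (K + 1) * 2 ^ (r + 1)) / η + (4 * ((r : ℝ) + 2) * 2 ^ r) / η ≤ b)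
    (ι α : Type) [Fintype ι] [DecidableEq α]
    (D B : ι → Finset α) : Boll (r + 2) b D B → (r + 2 + b).choose (r + 2) ≤ Fintype.card ι + (r + 2 + b).choose r →
    ∃ Y : Finset α, #Y = r + 2 + b ∧ (#((powersetCard (r + 2) Y).filter fun T => ∀ i, D i ≠ T) : ℝ) ≤ η * (b : ℝ) ^ (r + 1) := by
  intro h hcd
  have hK1 : 1 ≤ K := by
    rw [hK]
    exact Nat.one_le_iff_ne_zero.2 (by positivity)
  have hb1' := heavy r K hK1 θ (by rw [hθ]; positivity) b hb1 hb2 hb3 ι α D B h hcd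
  rw [hθ] at hb1'
  have p1 : 0 ≤ 3 * ((r : ℝ) + 2) ^ 2 := by positivity
  have p2 : 0 ≤ (r : ℝ) + 17 := by positivity
  have p3 : 0 ≤ 2 ^ (r + 2) * ((r + 2).factorial : ℝ) := by positivity
  have p4 : 0 ≤ (16 * ((r : ℝ) + 2) ^ 2 * (K + 1) * 2 ^ (r + 1)) / η := by positivity
  have p5 : 0 ≤ (4 * ((r : ℝ) + 2) * 2 ^ r) / η := by positivity
  exact St1_main h hcd hK hη0 hη1 (by linarith) (by
      have : ((r + 17 : ℕ) : ℝ) ≤ b := by
        push_cast
        linarith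
      exact_mod_cast this) (by linarith) (by
      have : (16 * ((r : ℝ) + 2) ^ 2 * (K + 1) * 2 ^ (r + 1)) / η ≤ b := by linarith
      rw [div_le_iff₀ hη0] at this
      linarith) (by
      have : (4 * ((r : ℝ) + 2) * 2 ^ r) / η ≤ b := by linarith
      rw [div_le_iff₀ hη0] at this
      linarith) (fun x hx => hb1' x hx)

end Pool.Agent.Lib.MP_20855c_co.LB
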