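import Pool.Agent.Lib.MP_20855c_co.Mg.G003
import Pool.Agent.Lib.MP_20855c_co.Mg.G001
import Pool.Agent.Lib.MP_20855c_co.LB.St1
import Pool.Agent.Lib.MP_20855c_co.Mg.G005
import Pool.Agent.Lib.MP_20855c_co.Mg.G002

/-!
# MP_20855c_co, large b: stage 2, assembly
-/

set_option autoImplicit false

namespace Pool.Agent.Lib.MP_20855c_co.LB

open Finset

variable {ι α : Type} [Fintype ι] [DecidableEq α]

open scoped Classical in
/-- The all-split members of `cI` give different all-split sets. -/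
theorem cIs_le_AS {k b : ℕ} {A B : ι → Finset α} {Y : Finset α} {L : List (Finset α)} (hs : IsSys k b A B) :
    #((cI A B Y).filter fun l => allsplit L (Dd A B l)) ≤ #(AS k Y L) := by
  apply card_le_card_of_injOn (Dd A B)
  · intro l hl
    have hl' := mem_filter.1 hl
    have h1 := mem_cI.1 hl'.1
    exact mem_coe.2 (mem_AS.2 ⟨h1.1, card_Dd hs l, hl'.2⟩)
  · intro i _ j _ hij
    exact Dd_inj hs hij

/-- Members of `cI` have `B_l` not inside `Y`. -/
theorem cI_le_sg {A B : ι → Finset α} {Y : Finset α} : #(cI A B Y) ≤ sg A B Y := by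
  unfold sg
  have h1 : #(cI A B Y) = ∑ _l ∈ cI A B Y, 1 := by simp
  rw [h1]
  calc (∑ _l ∈ cI A B Y, 1) ≤ ∑ l ∈ cI A B Y, #(B l \ Y) := by
        refine sum_le_sum fun l hl => ?_
        rw [mem_cI] at hl
        rw [Nat.one_le_iff_ne_zero, ← Nat.pos_iff_ne_zero, card_pos]
        by_contra hne
        rw [Finset.not_nonempty_iff_eq_empty, sdiff_eq_empty_iff_subset] at hne
        apply hl.2
        rw [← Dd_union_Cc (A := A) (B := B) l]
        exact union_subset hl.1 (inter_subset_right.trans hne)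
    _ ≤ ∑ l ∈ univ.filter (fun i => Dd A B i ⊆ Y), #(B l \ Y) := by
        apply sum_le_sum_of_subset
        intro l hl
        rw [mem_cI] at hl
        rw [mem_filter]
        exact ⟨mem_univ l, hl.1⟩

/-- Few pairs. -/
theorem case_small {r b : ℕ} {A B : ι → Finset α} {Y : Finset α} {L : List (Finset α)} (hs : IsSys (r + 2) b A B)
    (hY : #Y = r + 2 + b) (hL : KL A B Y L) (hlen : L.length ≤ 1) (hI : ∀ l, Cc A B l ⊆ Y → ¬ Disjoint (Cc A B l) (VV L)) :
    Fintype.card ι ≤ (r + 2 + b - 2).choose (r + 2) + sg A B Y + #(Out A B Y) := by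
  classical
  have h1 := key1 hs hL (hr_I hs hL hI)
  have h2 := card_Gd (k := r + 2) hL.pw (fun c hc => ⟨hL.two hs c hc, (hL.core c hc).1⟩)
  have h3 := cI_le_sg (A := A) (B := B) (Y := Y)
  rcases Nat.eq_zero_or_pos L.length with h0 | h0
  · have hLn : L = [] := List.length_eq_zero_iff.1 h0
    subst hLn
    have h4 : #((cI A B Y).filter fun l => ∃ c ∈ ([] : List (Finset α)), c ⊆ Dd A B l) = 0 := by
      rw [card_eq_zero, filter_eq_empty_iff]
      intro l _ h
      obtain ⟨c, hc, _⟩ := h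
      simp at hc
    have h5 : #((cI A B Y).filter fun l => allsplit ([] : List (Finset α)) (Dd A B l)) ≤ #(cI A B Y) := card_filter_le _ _
    have h6 : #(Gd (r + 2) Y []) = 0 := by
      rw [h2]
      rfl
    omega
  · have hl1 : L.length = 1 := by omega
    have h4 : #((cI A B Y).filter fun l => allsplit L (Dd A B l)) + #((cI A B Y).filter fun l => ∃ c ∈ L, c ⊆ Dd A B l) ≤ #(cI A B Y) := by
      rw [← card_union_of_disjoint]
      · apply card_le_card
        exact union_subset (filter_subset _ _) (filter_subset _ _)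
      · rw [Finset.disjoint_left]
        intro l hl hl'
        rw [mem_filter] at hl hl'
        obtain ⟨c, hc, hcD⟩ := hl'.2
        have h5 := hl.2 c hc
        rw [inter_eq_left.2 hcD, hL.two hs c hc] at h5
        omega
    have h6 : #(Gd (r + 2) Y L) = (r + 2 + b - 2).choose (r + 2) := by
      rw [h2, hl1, hY]
      show (r + 2 + b - 2).choose (r + 1 + 1) + 2 * gct (r + 2 + b - 2) (r + 1) 0 = _
      have h7 : gct (r + 2 + b - 2) (r + 1) 0 = 0 := by
        cases r + 1 <;> rfl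
      rw [h7, mul_zero, add_zero]
    omega

/-- Stage 2. -/
theorem st2 (r : ℕ) (ε : ℝ) (hεd : ε = 1 / (100 * (r + 2 + 2 : ℕ) : ℝ) ^ (r + 10)) (δ : ℝ)
    (hδd : δ = (ε / 2) ^ (r + 1) / ((r + 1).factorial : ℝ)) (b : ℕ) (hN1 : 2 / ε < b)
    (hN2 : ((r + 2).factorial : ℝ) * (δ + 1) / ε ^ (r + 2) < b) (hN3 : (100 * (r + 2 + 2)) ^ 5 + 2 * (r + 2) + 5 ≤ b)
    (ι α : Type) [Fintype ι] [DecidableEq α]
    (A B : ι → Finset α) (Y : Finset α) : IsSys (r + 2) b A B → #Y = r + 2 + b →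
    (#(miss (r + 2) A B Y) : ℝ) ≤ δ * (b : ℝ) ^ (r + 1) → Fintype.card ι ≤ gct (r + 2 + b) (r + 2) (r + 2 + 1) := by
  obtain ⟨K, hK, hKb, hX⟩ := xbound (r + 2)
  obtain ⟨CF, hCF, hCFb, hF⟩ := f5 (r + 2)
  set k : ℝ := ((r + 2 : ℕ) : ℝ) with hk
  have hk2 : (2 : ℝ) ≤ k := by rw [hk]; push_cast; linarith [(Nat.cast_nonneg r : (0 : ℝ) ≤ r)]
  have hk0 : (0 : ℝ) < k := by linarith
  set c : ℝ := 1 / (8 * k ^ 2) with hc
  have hc0 : 0 < c := by positivity
  have hc1 : c ≤ 1 / 32 := by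
    rw [hc]
    apply one_div_le_one_div_of_le (by norm_num)
    nlinarith
  -- the choice of ε
  obtain ⟨hε0, hε1, hε2, hε3, hε4, hε5⟩ : 0 < ε ∧ ((100 * (r + 2 + 2 : ℕ) : ℝ)) ^ (r + 2 + 6) * ε ≤ 1 ∧
      CF * ε ≤ 1 / 2 ∧ K * ε * (k + 3) ≤ 1 / 2 ∧ 2 * K * ε ≤ c / 4 ∧ ε * (8 * k) ≤ 1 := by
    have hku : ((r + 2 + 2 : ℕ) : ℝ) = k + 2 := by rw [hk]; push_cast; ring
    rw [hku] at hεd hKb hCFb ⊢
    obtain ⟨Z, hZ⟩ : ∃ Z : ℝ, Z = 100 * (k + 2) := ⟨_, rfl⟩
    rw [← hZ] at hεd hKb hCFb ⊢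
    have hZ1 : 1 ≤ Z := by rw [hZ]; linarith
    set M : ℝ := Z ^ (r + 10) with hM
    have hP : (0 : ℝ) < Z ^ (r + 8) := by positivity
    have hM2 : M = Z ^ (r + 8) * Z ^ 2 := by rw [hM, ← pow_add]
    have hZ2 : Z ^ 2 = 10000 * (k + 2) ^ 2 := by rw [hZ]; ring
    have hM0 : 0 < M := by rw [hM]; positivity
    have hle : ∀ x : ℝ, x ≤ M → x * (1 / M) ≤ 1 := by
      intro x hx
      rw [mul_one_div, div_le_one hM0]
      exact hx
    have hK' : K ≤ Z ^ (r + 8) := hKb
    have hCF' : CF ≤ Z ^ (r + 8) := hCFb.trans (pow_le_pow_right₀ hZ1 (by omega))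
    have hZ2' : 10000 * (k + 2) ^ 2 ≥ 10000 := by nlinarith
    have hbig : ∀ x y : ℝ, 0 ≤ x → x ≤ Z ^ (r + 8) → 0 ≤ y → y ≤ 10000 * (k + 2) ^ 2 → x * y ≤ M := by
      intro x y hx hx2 hy hy2
      rw [hM2, hZ2]
      exact mul_le_mul hx2 hy2 hy (by positivity)
    rw [hεd]
    refine ⟨by positivity, hle _ ?_, ?_, ?_, ?_, ?_⟩
    · rw [hM]
      exact pow_le_pow_right₀ hZ1 (by omega)
    · have h9 : CF * 2 ≤ M := hbig CF 2 hCF.le hCF' (by norm_num) (by linarith)
      have := hle (2 * CF) (by linarith)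
      linarith
    · have h9 : K * (2 * (k + 3)) ≤ M := hbig K (2 * (k + 3)) hK.le hK' (by positivity) (by nlinarith)
      have := hle (2 * K * (k + 3)) (by linarith)
      linarith
    · have h9 : K * (64 * k ^ 2) ≤ M := hbig K (64 * k ^ 2) hK.le hK' (by positivity) (by nlinarith)
      have h8 : 8 * K / c = K * (64 * k ^ 2) := by rw [hc]; field_simp; ring
      have h5 := hle (8 * K / c) (by rw [h8]; exact h9)
      have h6 : 8 * K / c * (1 / M) = (8 * K * (1 / M)) / c := by ring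
      rw [h6, div_le_one hc0] at h5
      linarith
    · have h9 : 1 * (8 * k) ≤ M := hbig 1 (8 * k) (by norm_num) (one_le_pow₀ hZ1) (by positivity) (by nlinarith)
      have := hle (8 * k) (by linarith)
      linarith
  have hrat := ratio (r + 2) (c / 4) (by positivity) ((100 * (r + 2 + 2)) ^ 5) (by
    have hku : (((100 * (r + 2 + 2)) ^ 5 : ℕ) : ℝ) = (100 * (k + 2)) ^ 5 := by rw [hk]; push_cast; ring
    rw [hku]
    have h1 : ((((r + 2 : ℕ) : ℝ)) + 1) * (2 * ((r + 2 : ℕ) : ℝ) + 4) / (c / 4) = 64 * (k + 1) * (k + 2) * k ^ 2 := by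
      rw [← hk, hc]
      field_simp
      ring
    rw [h1]
    have h2 : (100 * (k + 2)) ^ 5 = 10000000000 * (k + 2) ^ 5 := by ring
    rw [h2]
    have h3 : 64 * (k + 1) * (k + 2) * k ^ 2 ≤ 64 * (k + 2) * (k + 2) * (k + 2) ^ 2 := by
      apply mul_le_mul _ (by nlinarith) (by positivity) (by positivity)
      nlinarith
    have h4 : 64 * (k + 2) * (k + 2) * (k + 2) ^ 2 = 64 * (k + 2) ^ 4 := by ring
    have h5 : (0 : ℝ) < (k + 2) ^ 4 := by positivity
    have h6 : (k + 2) ^ 5 = (k + 2) ^ 4 * (k + 2) := by ring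
    nlinarith) b hN3
  have hbb3 : b ≥ 8 * (r + 2) ^ 2 := by
    have h1 : 8 * (r + 2) ^ 2 ≤ (100 * (r + 2 + 2)) ^ 5 := by
      have h2 : 8 * (r + 2) ^ 2 ≤ (100 * (r + 2 + 2)) ^ 2 := by
        have e1 : 8 * (r + 2) ^ 2 ≤ (3 * (r + 2)) ^ 2 := by
          rw [mul_pow]
          exact Nat.mul_le_mul_right _ (by norm_num)
        exact e1.trans (Nat.pow_le_pow_left (by omega) 2)
      have h3 : ∀ q : ℕ, 1 ≤ q → q ^ 2 ≤ q ^ 5 := fun q hq => Nat.pow_le_pow_right hq (by norm_num)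
      exact h2.trans (h3 _ (by omega))
    exact le_trans h1 (by linarith)
  intro hs hY hmiss
  classical
  have hctx := ctx_of r ε hε0 hε1 δ hδd b (by linarith [Nat.zero_le ((100 * (r + 2 + 2)) ^ 5)]) hN1 hN2 ι α A B Y hs hY hmiss
  by_contra hcon
  push Not at hcon
  obtain ⟨L, hL, hcase⟩ := exK (Y := Y) hs
  obtain ⟨L0, hp0, hmax⟩ := exG (r + 2) A B Y L
  have hL0 : KL A B Y L0 := hL.perm hp0
  have hlen0 : L0.length = L.length := hp0.length_eq.symm
  have hVV0 : VV L0 = VV L := (VV_perm hp0).symm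
  have hcase0 : L0.length = r + 2 + 2 ∨ (L0.length ≤ r + 2 + 1 ∧ ∀ l, Cc A B l ⊆ Y → ¬ Disjoint (Cc A B l) (VV L0)) := by
    rw [hlen0, hVV0]
    exact hcase
  have hmax0 : ∀ L' : List (Finset α), L0.Perm L' → GG (r + 2) A B Y L' ≤ GG (r + 2) A B Y L0 := fun L' hL' => hmax L' (hp0.trans hL')
  set g : ℕ := GG (r + 2) A B Y L0 with hg
  have hr : ∀ l, A l ⊆ Y → Cc A B l ∉ L0 → ¬ good L0 (Dd A B l) → rgood L0 (A l) := by
    rcases hcase0 with h | ⟨_, h⟩
    · exact hr_II hs hL0 (by omega)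
    · exact hr_I hs hL0 h
  have hkey := key1 hs hL0 hr
  have hXb := hX b ι α A B Y ε hctx L0 hL0 hcase0 g hmax0
  have h2L : ∀ c ∈ L0, #c = 2 := hL0.two hs
  have h2Y : ∀ c ∈ L0, #c = 2 ∧ c ⊆ Y := fun c hc => ⟨h2L c hc, (hL0.core c hc).1⟩
  have hmj := mj_le (k := r + 2) (A := A) (B := B) (Y := Y) h2L g hmax0
  have hGd := card_Gd (k := r + 2) hL0.pw h2Y
  rw [hY] at hGd
  have hlenb : L0.length ≤ r + 4 := by
    rcases hcase0 with h | ⟨h, _⟩ <;> omega
  -- real versions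
  have hkeyR : (Fintype.card ι : ℝ) + g ≤ #(Gd (r + 2) Y L0) + #((cI A B Y).filter fun l => allsplit L0 (Dd A B l)) +
      (#((cI A B Y).filter fun l => ∃ c ∈ L0, c ⊆ Dd A B l) + #(Out A B Y)) := by
    have : (Fintype.card ι : ℝ) + g ≤ ((#(Gd (r + 2) Y L0) + #((cI A B Y).filter fun l => allsplit L0 (Dd A B l)) +
      #((cI A B Y).filter fun l => ∃ c ∈ L0, c ⊆ Dd A B l) + #(Out A B Y) : ℕ) : ℝ) := by exact_mod_cast hkey
    push_cast at this
    linarith
  have hg0 : (0 : ℝ) ≤ g := Nat.cast_nonneg _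
  have hmjR : (#(MJ (r + 2) A B Y) : ℝ) ≤ L0.length * g + #(MA (r + 2) Y L0) := by exact_mod_cast hmj
  have hASMA : (#(AS (r + 2) Y L0) : ℝ) ≤ #(MA (r + 2) Y L0) := by exact_mod_cast card_le_card AS_sub_MA
  have hMA0 : (0 : ℝ) ≤ #(MA (r + 2) Y L0) := Nat.cast_nonneg _
  have hlenR : (L0.length : ℝ) ≤ k + 2 := by
    rw [hk]
    exact_mod_cast hlenb
  have hKε : 0 < K * ε := by positivity
  -- X ≤ g / 2 + 2 K ε MA
  have hX2 : (#((cI A B Y).filter fun l => ∃ c ∈ L0, c ⊆ Dd A B l) : ℝ) + #(Out A B Y) ≤ g / 2 + 2 * (K * ε) * #(MA (r + 2) Y L0) := by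
    have h1 : (g : ℝ) + #(MJ (r + 2) A B Y) + #(AS (r + 2) Y L0) ≤ (k + 3) * g + 2 * #(MA (r + 2) Y L0) := by
      have : (L0.length : ℝ) * g ≤ (k + 2) * g := mul_le_mul_of_nonneg_right hlenR hg0
      linarith
    calc (#((cI A B Y).filter fun l => ∃ c ∈ L0, c ⊆ Dd A B l) : ℝ) + #(Out A B Y)
        ≤ K * ε * ((k + 3) * g + 2 * #(MA (r + 2) Y L0)) := hXb.trans (mul_le_mul_of_nonneg_left h1 hKε.le)
      _ = (K * ε * (k + 3)) * g + 2 * (K * ε) * #(MA (r + 2) Y L0) := by ring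
      _ ≤ (1 / 2) * g + 2 * (K * ε) * #(MA (r + 2) Y L0) := by
          have := mul_le_mul_of_nonneg_right hε3 hg0
          linarith
      _ = _ := by ring
  have hmain : (Fintype.card ι : ℝ) + g / 2 ≤ #(Gd (r + 2) Y L0) + #((cI A B Y).filter fun l => allsplit L0 (Dd A B l)) +
      2 * (K * ε) * #(MA (r + 2) Y L0) := by linarith
  rcases Nat.lt_or_ge (r + 2) L0.length with hν | hν
  · -- many pairs
    have hMA : MA (r + 2) Y L0 = ∅ := MA_empty hL0.pw hν
    have hIS : #((cI A B Y).filter fun l => allsplit L0 (Dd A B l)) = 0 := by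
      have h1 := cIs_le_AS (Y := Y) (L := L0) hs
      have h2 := card_le_card (AS_sub_MA (k := r + 2) (Y := Y) (L := L0))
      rw [hMA, card_empty] at h2
      omega
    rw [hMA, hIS] at hmain
    simp only [card_empty, Nat.cast_zero, mul_zero, add_zero] at hmain
    have h1 : (Fintype.card ι : ℝ) ≤ #(Gd (r + 2) Y L0) := by linarith
    have h2 : Fintype.card ι ≤ #(Gd (r + 2) Y L0) := by exact_mod_cast h1
    rw [hGd, gct_big _ _ _ (by omega)] at h2
    omega
  · rcases Nat.lt_or_ge L0.length 2 with hν2 | hν2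
    · -- at most one pair
      have hI0 : ∀ l, Cc A B l ⊆ Y → ¬ Disjoint (Cc A B l) (VV L0) := by
        rcases hcase0 with h | ⟨_, h⟩
        · omega
        · exact h
      have h1 := case_small hs hY hL0 (by omega) hI0
      have hF1 := hF b ι α A B Y ε hctx
      have hcm := card_miss hs hY
      have hge := gct_ge (r + 2 + b) r (by nlinarith)
      have hlt := gct_lt (r + 2 + b) (r + 2) 1 (by omega)
      have hg1 : gct (r + 2 + b) (r + 2) 1 = (r + 2 + b - 2).choose (r + 2) := by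
        show (r + 2 + b - 2).choose (r + 1 + 1) + 2 * gct (r + 2 + b - 2) (r + 1) 0 = _
        have h7 : gct (r + 2 + b - 2) (r + 1) 0 = 0 := by
          cases r + 1 <;> rfl
        rw [h7, mul_zero, add_zero]
      have hMJm : (#(MJ (r + 2) A B Y) : ℝ) ≤ #(miss (r + 2) A B Y) := by exact_mod_cast card_le_card (MJ_miss (Y := Y) hs)
      set ms : ℝ := ((#(miss (r + 2) A B Y) : ℕ) : ℝ) with hms
      have hms0 : 0 ≤ ms := Nat.cast_nonneg _
      have hout : (#(Out A B Y) : ℝ) ≤ ms / 2 := by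
        have := mul_le_mul_of_nonneg_right hε2 hms0
        linarith
      have hcmR : ms + (Fintype.card ι : ℝ) = ((r + 2 + b).choose (r + 2) : ℝ) + #(Out A B Y) := by
        rw [hms]
        exact_mod_cast hcm
      have hge1 : (r + 2 + b).choose (r + 2) ≤ Fintype.card ι + (r + 2 + b).choose r := by
        have : gct (r + 2 + b) (r + 2) (r + 3) = gct (r + 2 + b) (r + 2) (r + 2 + 1) := rfl
        omega
      have hge1R : ((r + 2 + b).choose (r + 2) : ℝ) ≤ (Fintype.card ι : ℝ) + ((r + 2 + b).choose r : ℝ) := by exact_mod_cast hge1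
      have hms2 : ms ≤ 2 * ((r + 2 + b).choose r : ℝ) := by linarith
      have hsg : (sg A B Y : ℝ) ≤ ε * b * ms := by
        refine hctx.hσ.trans ?_
        exact mul_le_mul_of_nonneg_left hMJm (by positivity)
      have h1R : (Fintype.card ι : ℝ) ≤ ((r + 2 + b - 2).choose (r + 2) : ℝ) + sg A B Y + #(Out A B Y) := by exact_mod_cast h1
      -- compare
      have hchoose : ((r + 2 + b).choose (r + 1) : ℝ) * ((r + 1 : ℕ) : ℝ) = ((r + 2 + b).choose r : ℝ) * ((b + 2 : ℕ) : ℝ) := by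
        have h5 := Nat.choose_succ_right_eq (r + 2 + b) r
        have h6 : r + 2 + b - r = b + 2 := by omega
        rw [h6] at h5
        exact_mod_cast h5
      have hr4 := hrat (r + 1) (by omega) 4 (by omega)
      have hlt' : (r + 2 + b - 2).choose (r + 2) + 2 * (r + 2 + b - 4).choose (r + 1) ≤ gct (r + 2 + b) (r + 2) (r + 2 + 1) := by
        rw [hg1] at hlt
        have h5 : r + 2 + b - 2 * 1 - 2 = r + 2 + b - 4 := by omega
        have h6 : r + 2 - 1 = r + 1 := by omega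
        rw [h5, h6, pow_one] at hlt
        exact hlt
      have hltR : ((r + 2 + b - 2).choose (r + 2) : ℝ) + 2 * ((r + 2 + b - 4).choose (r + 1) : ℝ) < (Fintype.card ι : ℝ) := by
        exact_mod_cast lt_of_le_of_lt hlt' hcon
      set X : ℝ := ((r + 2 + b).choose (r + 1) : ℝ) with hXd
      set Z : ℝ := ((r + 2 + b).choose r : ℝ) with hZd
      have hX0 : 0 ≤ X := Nat.cast_nonneg _
      have hZ0 : 0 ≤ Z := Nat.cast_nonneg _
      have hbR : (8 * (r + 2 : ℕ) ^ 2 : ℝ) ≤ b := by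
        have : ((8 * (r + 2) ^ 2 : ℕ) : ℝ) ≤ (b : ℝ) := by exact_mod_cast hbb3
        push_cast at this ⊢
        exact this
      have hb0 : (0 : ℝ) < b := by nlinarith
      -- 2 * ((r+2+b-4).choose (r+1)) ≥ X
      have h7 : X ≤ 2 * ((r + 2 + b - 4).choose (r + 1) : ℝ) := by
        have h8 : (1 - c / 4) * X ≤ ((r + 2 + b - 4).choose (r + 1) : ℝ) := hr4
        nlinarith
      -- sg + Out ≤ (2 ε b + 1) Z < X
      have h8 : (sg A B Y : ℝ) + #(Out A B Y) ≤ (2 * ε * b + 1) * Z := by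
        have h9 : ε * b * ms ≤ ε * b * (2 * Z) := mul_le_mul_of_nonneg_left hms2 (by positivity)
        nlinarith
      have h9 : (2 * ε * b + 1) * Z ≤ X := by
        have hb2 : (0 : ℝ) < ((b + 2 : ℕ) : ℝ) := by positivity
        have h10 : ((2 * ε * b + 1) * Z) * ((b + 2 : ℕ) : ℝ) ≤ X * ((b + 2 : ℕ) : ℝ) := by
          have h11 : ((2 * ε * b + 1) * Z) * ((b + 2 : ℕ) : ℝ) = (2 * ε * b + 1) * (X * ((r + 1 : ℕ) : ℝ)) := by
            rw [hchoose]; ring
          rw [h11]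
          have h12 : (2 * ε * b + 1) * ((r + 1 : ℕ) : ℝ) ≤ ((b + 2 : ℕ) : ℝ) := by
            have h13 : ((r + 1 : ℕ) : ℝ) ≤ k := by rw [hk]; exact_mod_cast (by omega : r + 1 ≤ r + 2)
            have h14 : (0 : ℝ) ≤ ((r + 1 : ℕ) : ℝ) := Nat.cast_nonneg _
            have h15 : 2 * ε * b * ((r + 1 : ℕ) : ℝ) ≤ b / 4 := by
              calc 2 * ε * b * ((r + 1 : ℕ) : ℝ) ≤ 2 * ε * b * k := mul_le_mul_of_nonneg_left h13 (by positivity)
                _ = (ε * (8 * k)) * (b / 4) := by ring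
                _ ≤ 1 * (b / 4) := mul_le_mul_of_nonneg_right hε5 (by positivity)
                _ = b / 4 := one_mul _
            have h16 : k ≤ b / 8 := by
              have : 8 * k ^ 2 ≤ b := by rw [hk]; exact hbR
              nlinarith
            push_cast at *
            nlinarith
          calc (2 * ε * b + 1) * (X * ((r + 1 : ℕ) : ℝ)) = X * ((2 * ε * b + 1) * ((r + 1 : ℕ) : ℝ)) := by ring
            _ ≤ X * ((b + 2 : ℕ) : ℝ) := mul_le_mul_of_nonneg_left h12 hX0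
        exact le_of_mul_le_mul_right h10 hb2
      linarith
    · -- 2 ≤ ν ≤ k
      set ν : ℕ := L0.length with hνd
      have hisb := isb hs hY hL0 hν2
      have hr1 : #(MJ (r + 2) A B Y ∩ Gd (r + 2) Y L0) ≤ g := by
        have := hmax0 L0 (List.Perm.refl _)
        unfold GG at this
        omega
      have hr2 : #(MJ (r + 2) A B Y ∩ Gd (r + 2) Y L0.reverse) ≤ g := by
        have := hmax0 L0.reverse (List.reverse_perm L0).symm
        unfold GG at this
        omega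
      have hISg : (#((cI A B Y).filter fun l => allsplit L0 (Dd A B l)) : ℝ) ≤ 4 * k ^ 2 * g := by
        have h1 : #((cI A B Y).filter fun l => allsplit L0 (Dd A B l)) ≤ (r + 2) * (2 * (r + 2)) * (g + g) := by
          refine hisb.trans ?_
          apply Nat.mul_le_mul
          · exact Nat.mul_le_mul_left _ (Nat.mul_le_mul_left _ hν)
          · omega
        have h2 : (#((cI A B Y).filter fun l => allsplit L0 (Dd A B l)) : ℝ) ≤ (((r + 2) * (2 * (r + 2)) * (g + g) : ℕ) : ℝ) := by exact_mod_cast h1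
        refine h2.trans (le_of_eq ?_)
        rw [hk]
        push_cast
        ring
      have hISA : #((cI A B Y).filter fun l => allsplit L0 (Dd A B l)) ≤ 2 ^ ν * (r + 2 + b - 2 * ν).choose (r + 2 - ν) := by
        refine (cIs_le_AS hs).trans ?_
        have h1 := card_AS (k := r + 2) hL0.pw h2Y hν
        rw [hY] at h1
        exact h1
      have hMAc : #(MA (r + 2) Y L0) ≤ 2 ^ ν * (r + 2 + b).choose (r + 2 - ν) := by
        have h1 := card_MA (k := r + 2) (Y := Y) hL0.pw h2L hν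
        rw [hY] at h1
        exact h1
      have hlt := gct_lt (r + 2 + b) (r + 2) ν hν
      rw [← hGd] at hlt
      set X : ℝ := ((r + 2 + b).choose (r + 2 - ν) : ℝ) with hXd
      set X1 : ℝ := ((r + 2 + b - 2 * ν).choose (r + 2 - ν) : ℝ) with hX1d
      set X2 : ℝ := ((r + 2 + b - (2 * ν + 2)).choose (r + 2 - ν) : ℝ) with hX2d
      set P : ℝ := (2 : ℝ) ^ ν with hPd
      have hP0 : 0 < P := by positivity
      have hX0 : 0 ≤ X := Nat.cast_nonneg _
      have hX1le : X1 ≤ X := by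
        rw [hX1d, hXd]
        exact_mod_cast Nat.choose_le_choose _ (Nat.sub_le _ _)
      have hX1ge : (1 - c / 4) * X ≤ X1 := hrat (r + 2 - ν) (Nat.sub_le _ _) (2 * ν) (by omega)
      have hX2ge : (1 - c / 4) * X ≤ X2 := hrat (r + 2 - ν) (Nat.sub_le _ _) (2 * ν + 2) (by omega)
      have hISAR : (#((cI A B Y).filter fun l => allsplit L0 (Dd A B l)) : ℝ) ≤ P * X1 := by
        rw [hPd, hX1d]
        exact_mod_cast hISA
      have hMAR : (#(MA (r + 2) Y L0) : ℝ) ≤ P * X := by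
        rw [hPd, hXd]
        exact_mod_cast hMAc
      have hltR : (#(Gd (r + 2) Y L0) : ℝ) + P * X2 < Fintype.card ι := by
        have h1 : #(Gd (r + 2) Y L0) + 2 ^ ν * (r + 2 + b - (2 * ν + 2)).choose (r + 2 - ν) < Fintype.card ι := by
          have h2 : r + 2 + b - 2 * ν - 2 = r + 2 + b - (2 * ν + 2) := by omega
          rw [h2] at hlt
          exact lt_of_le_of_lt hlt hcon
        rw [hPd, hX2d]
        exact_mod_cast h1
      set IS : ℝ := (#((cI A B Y).filter fun l => allsplit L0 (Dd A B l)) : ℝ) with hISd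
      -- g / 2 ≥ c IS
      have hcg : c * IS ≤ g / 2 := by
        rw [hc, div_mul_eq_mul_div, one_mul, div_le_iff₀ (by positivity)]
        nlinarith
      have h3 : IS - c * IS ≤ (1 - c) * (P * X1) := by
        have : (1 - c) * IS ≤ (1 - c) * (P * X1) := mul_le_mul_of_nonneg_left hISAR (by linarith)
        linarith
      have h4 : 2 * (K * ε) * (#(MA (r + 2) Y L0) : ℝ) ≤ (c / 4) * (P * X) := by
        calc 2 * (K * ε) * (#(MA (r + 2) Y L0) : ℝ) ≤ 2 * (K * ε) * (P * X) := mul_le_mul_of_nonneg_left hMAR (by positivity)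
          _ ≤ (c / 4) * (P * X) := by
              apply mul_le_mul_of_nonneg_right _ (by positivity)
              linarith
      have h5 : (Fintype.card ι : ℝ) ≤ #(Gd (r + 2) Y L0) + (1 - c) * (P * X1) + (c / 4) * (P * X) := by linarith
      -- (1 - c) X1 + (c / 4) X ≤ X2
      have h6 : (1 - c) * X1 + (c / 4) * X ≤ X2 := by
        have h7 : (1 - c) * X1 ≤ (1 - c) * X := mul_le_mul_of_nonneg_left hX1le (by linarith)
        nlinarith
      have h7 : P * ((1 - c) * X1 + (c / 4) * X) ≤ P * X2 := mul_le_mul_of_nonneg_left h6 hP0.le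
      nlinarith

end Pool.Agent.Lib.MP_20855c_co.LB
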