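import Pool.Agent.Lib.MP_20855c_co.Mg.G005

/-!
# MP_20855c_co, large b: Bollobas systems with nearly maximal size

`k = r + 2`, `N = r + 2 + b`, `Δ = (r + 1 + b).choose (r + 1)`, `C = (r + 2 + b).choose (r + 2)`, `k * C = N * Δ`. `γ = C - card ι ≤ (r + 2 + b).choose r ≤ (2 b) ^ r`.
-/

set_option autoImplicit false

namespace Pool.Agent.Lib.MP_20855c_co.LB

open Finset

private theorem heavy_ev (r K : ℕ) (hK : 1 ≤ K) (b : ℕ) (hb : (r + 2) ^ 3 * K ≤ b) :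
    (1 - 1 / (K : ℝ)) * ((b : ℝ) + (r + 1)) ^ (r + 1) ≤ ((1 - 1 / ((K : ℝ) * (r + 2))) * b) ^ (r + 1) := by
  have hKr : (1 : ℝ) ≤ K := by exact_mod_cast hK
  have hr0 : (0 : ℝ) ≤ r := Nat.cast_nonneg r
  have hbr : ((r : ℝ) + 2) ^ 3 * K ≤ b := by exact_mod_cast hb
  have hb0 : (0 : ℝ) < b := lt_of_lt_of_le (by positivity) hbr
  obtain ⟨y, hy⟩ : ∃ y : ℝ, y = 1 / ((K : ℝ) * (r + 2)) + (r + 1) / b := ⟨_, rfl⟩
  have h1 : ((r : ℝ) + 1) ^ 2 / b ≤ 1 / ((K : ℝ) * (r + 2)) := by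
    rw [div_le_div_iff₀ hb0 (by positivity)]
    have : ((r : ℝ) + 1) ^ 2 ≤ (r + 2) ^ 2 := by nlinarith
    calc ((r : ℝ) + 1) ^ 2 * (K * (r + 2)) ≤ (r + 2) ^ 2 * (K * (r + 2)) := mul_le_mul_of_nonneg_right this (by positivity)
      _ = ((r : ℝ) + 2) ^ 3 * K := by ring
      _ ≤ 1 * b := by rw [one_mul]; exact hbr
  have h2 : ((r : ℝ) + 1) * y ≤ 1 / K := by
    have h3 : ((r : ℝ) + 1) * y = (r + 1) * (1 / ((K : ℝ) * (r + 2))) + (r + 1) ^ 2 / b := by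
      rw [hy]; ring
    have h4 : ((r : ℝ) + 1) * (1 / ((K : ℝ) * (r + 2))) + 1 / ((K : ℝ) * (r + 2)) = 1 / K := by
      field_simp
      ring
    rw [h3]
    linarith
  have hy0 : 0 ≤ y := by rw [hy]; positivity
  have hK1 : 1 / (K : ℝ) ≤ 1 := by
    rw [div_le_one (by linarith)]
    exact hKr
  have hy1 : y ≤ 1 := by nlinarith
  have h5 : 1 - 1 / (K : ℝ) ≤ (1 - y) ^ (r + 1) := by
    have h6 := one_add_mul_le_pow (show (-2 : ℝ) ≤ -y by linarith) (r + 1)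
    push_cast at h6
    have h7 : (1 : ℝ) + -y = 1 - y := by ring
    rw [h7] at h6
    linarith
  have h8 : (1 - y) * ((b : ℝ) + (r + 1)) ≤ (1 - 1 / ((K : ℝ) * (r + 2))) * b := by
    have h9 : ((r : ℝ) + 1) / b * b = r + 1 := by field_simp
    have h10 : y * b = 1 / ((K : ℝ) * (r + 2)) * b + (r + 1) := by
      rw [hy, add_mul, h9]
    have h11 : 0 ≤ y * ((r : ℝ) + 1) := by positivity
    linarith
  calc (1 - 1 / (K : ℝ)) * ((b : ℝ) + (r + 1)) ^ (r + 1) ≤ (1 - y) ^ (r + 1) * ((b : ℝ) + (r + 1)) ^ (r + 1) :=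
        mul_le_mul_of_nonneg_right h5 (by positivity)
    _ = ((1 - y) * ((b : ℝ) + (r + 1))) ^ (r + 1) := by rw [mul_pow]
    _ ≤ _ := pow_le_pow_left₀ (mul_nonneg (by linarith) (by positivity)) h8 _

/-- Heavy points. PROOF. Let `η1 = 1 / (K (r + 2))`. `(r + 1)! (Δ - dg) ≤ (1 - 1 / K) (b + r + 1) ^ (r + 1) ≤ m ^ (r + 1)` for `m = ⌊(1 - η1) b⌋ - (r + 2) ^ 2` and `b` large (Bernoulli: `(1 - η1) ^ (r + 1) > 1 - 1 / K`). By `pt2` and `pt1`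
`(N - m - (r + 2) (r + 1)) (Δ - dg) ≤ N γ`, so `Δ - dg ≤ (2 / η1) γ ≤ C' b ^ r`. Now `pt2` with `m = ⌊θ' b⌋` (possible for `b` large, as `(r + 1)! C' b ^ r ≤ m ^ (r + 1)`) gives `og ≤ (θ' b + (r + 2) ^ 2) C' b ^ r ≤ θ b ^ (r + 1)`. -/
theorem heavy (r K : ℕ) (hK : 1 ≤ K) (θ : ℝ) (hθ : 0 < θ) (b : ℕ) (hb1 : (r + 2) ^ 3 * (2 * K) ≤ b)
    (hb2 : ((r + 1).factorial : ℝ) * (4 * (K * (r + 2)) * 2 ^ r) * (2 * (4 * (K * (r + 2)) * 2 ^ r) / θ) ^ (r + 1) ≤ b)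
    (hb3 : (1 + ((r : ℝ) + 2) * (r + 1)) * (2 * (4 * (K * (r + 2)) * 2 ^ r) / θ) ≤ b) (ι α : Type) [Fintype ι] [DecidableEq α]
    (D B : ι → Finset α) : Boll (r + 2) b D B → (r + 2 + b).choose (r + 2) ≤ Fintype.card ι + (r + 2 + b).choose r →
    ∀ x, (r + 1 + b).choose (r + 1) ≤ K * dg D x → (og D B x : ℝ) ≤ θ * (b : ℝ) ^ (r + 1) := by
  have hKr : (1 : ℝ) ≤ K := by exact_mod_cast hK
  have hr0 : (0 : ℝ) ≤ r := Nat.cast_nonneg r
  obtain ⟨η, hηdef⟩ : ∃ η : ℝ, η = 1 / ((K : ℝ) * (r + 2)) := ⟨_, rfl⟩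
  have hη : 0 < η := by rw [hηdef]; positivity
  have hη1 : η ≤ 1 / 2 := by
    rw [hηdef]
    apply one_div_le_one_div_of_le (by norm_num)
    nlinarith
  obtain ⟨C', hC'def⟩ : ∃ C' : ℝ, C' = 4 / η * 2 ^ r := ⟨_, rfl⟩
  have hC' : 0 < C' := by rw [hC'def]; positivity
  obtain ⟨θ', hθ'def⟩ : ∃ θ' : ℝ, θ' = θ / (2 * C') := ⟨_, rfl⟩
  have hθ' : 0 < θ' := by rw [hθ'def]; positivity
  intro h hcard x hx
  have hC'K : C' = 4 * (K * (r + 2)) * 2 ^ r := by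
    rw [hC'def, hηdef]
    field_simp
  have hθ'inv : 2 * (4 * (K * (r + 2)) * 2 ^ r) / θ = 1 / θ' := by
    rw [← hC'K, hθ'def, one_div_div]
  rw [← hC'K] at hb2 hb3
  have hθ'inv' : 2 * C' / θ = 1 / θ' := by
    rw [hθ'def, one_div_div]
  rw [hθ'inv'] at hb2 hb3
  have f1 : (1 - 1 / (K : ℝ)) * ((b : ℝ) + (r + 1)) ^ (r + 1) ≤ ((1 - η) * b) ^ (r + 1) := by
    rw [hηdef]
    exact heavy_ev r K hK b (le_trans (Nat.mul_le_mul_left _ (by omega)) hb1)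
  have hb1R : ((r : ℝ) + 2) ^ 3 * (2 * K) ≤ b := by exact_mod_cast hb1
  have f2 : 2 * ((r : ℝ) + 2) ^ 2 / η ≤ b := by
    have : 2 * ((r : ℝ) + 2) ^ 2 / η = ((r : ℝ) + 2) ^ 3 * (2 * K) := by
      rw [hηdef]
      field_simp
    rw [this]
    exact hb1R
  have f3 : r + 2 ≤ b := by
    refine le_trans ?_ hb1
    have h1 : 1 ≤ (r + 2) ^ 2 := Nat.one_le_pow _ _ (by omega)
    have h2 : 1 ≤ 2 * K := by omega
    calc r + 2 = (r + 2) * 1 * 1 := by ring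
      _ ≤ (r + 2) * (r + 2) ^ 2 * (2 * K) := Nat.mul_le_mul (Nat.mul_le_mul_left _ h1) h2
      _ = _ := by ring
  have f4 : ((r + 1).factorial : ℝ) * C' / θ' ^ (r + 1) ≤ b := by
    refine le_trans (le_of_eq ?_) hb2
    rw [one_div, inv_pow, div_eq_mul_inv]
  have f5 : (1 + ((r : ℝ) + 2) * (r + 1)) / θ' ≤ b := by
    refine le_trans (le_of_eq ?_) hb3
    rw [one_div, div_eq_mul_inv]
  have hbpos : (0 : ℝ) < b := by
    have : 0 < b := by omega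
    exact_mod_cast this
  have hd0 : dg D x ≤ (r + 1 + b).choose (r + 1) := pt0 h x
  obtain ⟨δ, hδ⟩ : ∃ δ : ℕ, δ = (r + 1 + b).choose (r + 1) - dg D x := ⟨_, rfl⟩
  have hδr : (δ : ℝ) = ((r + 1 + b).choose (r + 1) : ℕ) - (dg D x : ℝ) := by
    rw [hδ, Nat.cast_sub hd0]
  have hpt1 := pt1 h (by omega) x
  rw [← hδr] at hpt1
  -- gamma
  have hγ : (((r + 2 + b).choose (r + 2) : ℕ) : ℝ) - (Fintype.card ι : ℝ) ≤ (2 * (b : ℝ)) ^ r := by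
    have h1 : (((r + 2 + b).choose (r + 2) : ℕ) : ℝ) ≤ (Fintype.card ι : ℝ) + ((r + 2 + b).choose r : ℕ) := by
      exact_mod_cast hcard
    have h2 : (r + 2 + b).choose r ≤ (2 * b) ^ r :=
      (Nat.choose_le_pow _ _).trans (Nat.pow_le_pow_left (by omega) r)
    have h3 : (((r + 2 + b).choose r : ℕ) : ℝ) ≤ (2 * (b : ℝ)) ^ r := by exact_mod_cast h2
    linarith
  -- first step
  have hfac : ((r + 1).factorial : ℝ) * ((r + 1 + b).choose (r + 1) : ℕ) ≤ ((b : ℝ) + (r + 1)) ^ (r + 1) := by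
    have h1 : (r + 1).factorial * (r + 1 + b).choose (r + 1) ≤ (r + 1 + b) ^ (r + 1) := by
      rw [← Nat.descFactorial_eq_factorial_mul_choose]
      exact Nat.descFactorial_le_pow _ _
    have h2 : (((r + 1).factorial * (r + 1 + b).choose (r + 1) : ℕ) : ℝ) ≤ (((r + 1 + b) ^ (r + 1) : ℕ) : ℝ) := by
      exact_mod_cast h1
    push_cast at h2
    calc _ ≤ ((r : ℝ) + 1 + b) ^ (r + 1) := h2
      _ = _ := by ring
  have hδ1 : (δ : ℝ) ≤ (1 - 1 / (K : ℝ)) * ((r + 1 + b).choose (r + 1) : ℕ) := by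
    have h1 : (((r + 1 + b).choose (r + 1) : ℕ) : ℝ) ≤ (K : ℝ) * dg D x := by exact_mod_cast hx
    have h2 : (((r + 1 + b).choose (r + 1) : ℕ) : ℝ) / K ≤ dg D x := by
      rw [div_le_iff₀ (by linarith)]
      linarith
    rw [hδr]
    have h3 : (1 - 1 / (K : ℝ)) * (((r + 1 + b).choose (r + 1) : ℕ) : ℝ) =
        ((r + 1 + b).choose (r + 1) : ℕ) - (((r + 1 + b).choose (r + 1) : ℕ) : ℝ) / K := by ring
    rw [h3]
    linarith
  obtain ⟨m, hm⟩ : ∃ m : ℕ, m = ⌈(1 - η) * (b : ℝ)⌉₊ := ⟨_, rfl⟩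
  have hm1 : (1 - η) * (b : ℝ) ≤ m := by rw [hm]; exact Nat.le_ceil _
  have hm2 : (m : ℝ) < (1 - η) * (b : ℝ) + 1 := by
    rw [hm]
    exact Nat.ceil_lt_add_one (by nlinarith)
  have hK1 : (0 : ℝ) ≤ 1 - 1 / (K : ℝ) := by
    have : 1 / (K : ℝ) ≤ 1 := by
      rw [div_le_one (by linarith)]
      exact hKr
    linarith
  have g1 : (r + 1).factorial * ((r + 1 + b).choose (r + 1) - dg D x) ≤ m ^ (r + 1) := by
    rw [← hδ]
    have h1 : (((r + 1).factorial : ℕ) : ℝ) * δ ≤ (m : ℝ) ^ (r + 1) := by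
      calc (((r + 1).factorial : ℕ) : ℝ) * δ
          ≤ ((r + 1).factorial : ℝ) * ((1 - 1 / (K : ℝ)) * ((r + 1 + b).choose (r + 1) : ℕ)) :=
            mul_le_mul_of_nonneg_left hδ1 (Nat.cast_nonneg _)
        _ = (1 - 1 / (K : ℝ)) * (((r + 1).factorial : ℝ) * ((r + 1 + b).choose (r + 1) : ℕ)) := by ring
        _ ≤ (1 - 1 / (K : ℝ)) * ((b : ℝ) + (r + 1)) ^ (r + 1) :=
            mul_le_mul_of_nonneg_left hfac hK1
        _ ≤ ((1 - η) * b) ^ (r + 1) := f1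
        _ ≤ (m : ℝ) ^ (r + 1) := pow_le_pow_left₀ (by nlinarith) hm1 _
    exact_mod_cast h1
  have g2 := pt2 h x m g1
  rw [← hδ] at g2
  have g3 : ((r : ℝ) + 2) * og D B x ≤ ((m : ℝ) + (r + 2) * (r + 1)) * δ := by exact_mod_cast g2
  -- the bound for δ
  have hN : ((r + 2 + b : ℕ) : ℝ) = (r : ℝ) + 2 + b := by push_cast; ring
  have hk2 : ((r + 2 : ℕ) : ℝ) = (r : ℝ) + 2 := by push_cast; ring
  rw [hN, hk2] at hpt1
  have f3r : (r : ℝ) + 2 ≤ b := by exact_mod_cast f3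
  have f2' : ((r : ℝ) + 2) ^ 2 ≤ η / 2 * b := by
    rw [div_le_iff₀ hη] at f2
    nlinarith
  have hδ0 : (0 : ℝ) ≤ δ := Nat.cast_nonneg _
  have g4 : η / 2 * b * δ ≤ ((r : ℝ) + 2 + b) * (2 * (b : ℝ)) ^ r := by
    have h1 : ((r : ℝ) + 2 + b) * δ ≤ ((r : ℝ) + 2 + b) * (2 * (b : ℝ)) ^ r +
        ((m : ℝ) + (r + 2) * (r + 1)) * δ := by
      have h2 : ((r : ℝ) + 2 + b) * ((((r + 2 + b).choose (r + 2) : ℕ) : ℝ) - (Fintype.card ι : ℝ)) ≤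
          ((r : ℝ) + 2 + b) * (2 * (b : ℝ)) ^ r :=
        mul_le_mul_of_nonneg_left hγ (by positivity)
      linarith
    have h3 : η / 2 * b ≤ ((r : ℝ) + 2 + b) - ((m : ℝ) + (r + 2) * (r + 1)) := by
      nlinarith
    have h4 := mul_le_mul_of_nonneg_right h3 hδ0
    nlinarith
  have g5 : (δ : ℝ) ≤ C' * (b : ℝ) ^ r := by
    have h1 : η / 2 * b * δ ≤ 2 * b * (2 * (b : ℝ)) ^ r := by
      refine g4.trans (mul_le_mul_of_nonneg_right (by linarith) (by positivity))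
    have h2 : η / 2 * b * (C' * (b : ℝ) ^ r) = 2 * b * (2 * (b : ℝ)) ^ r := by
      rw [hC'def, mul_pow]
      field_simp
      norm_num
    rw [← h2] at h1
    exact le_of_mul_le_mul_left h1 (by positivity)
  -- second step
  obtain ⟨m', hm'⟩ : ∃ m' : ℕ, m' = ⌈θ' * (b : ℝ)⌉₊ := ⟨_, rfl⟩
  have hm'1 : θ' * (b : ℝ) ≤ m' := by rw [hm']; exact Nat.le_ceil _
  have hm'2 : (m' : ℝ) < θ' * (b : ℝ) + 1 := by
    rw [hm']
    exact Nat.ceil_lt_add_one (by positivity)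
  have g6 : (r + 1).factorial * ((r + 1 + b).choose (r + 1) - dg D x) ≤ m' ^ (r + 1) := by
    rw [← hδ]
    have h1 : (((r + 1).factorial : ℕ) : ℝ) * δ ≤ (m' : ℝ) ^ (r + 1) := by
      rw [div_le_iff₀ (by positivity)] at f4
      calc (((r + 1).factorial : ℕ) : ℝ) * δ
          ≤ ((r + 1).factorial : ℝ) * (C' * (b : ℝ) ^ r) :=
            mul_le_mul_of_nonneg_left g5 (Nat.cast_nonneg _)
        _ = (((r + 1).factorial : ℝ) * C') * (b : ℝ) ^ r := by ring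
        _ ≤ (b * θ' ^ (r + 1)) * (b : ℝ) ^ r := mul_le_mul_of_nonneg_right f4 (by positivity)
        _ = (θ' * b) ^ (r + 1) := by ring
        _ ≤ (m' : ℝ) ^ (r + 1) := pow_le_pow_left₀ (by positivity) hm'1 _
    exact_mod_cast h1
  have g7 := pt2 h x m' g6
  rw [← hδ] at g7
  have g8 : ((r : ℝ) + 2) * og D B x ≤ ((m' : ℝ) + (r + 2) * (r + 1)) * δ := by exact_mod_cast g7
  have f5' : 1 + ((r : ℝ) + 2) * (r + 1) ≤ θ' * b := by
    rw [div_le_iff₀ hθ'] at f5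
    linarith
  have g9 : ((m' : ℝ) + (r + 2) * (r + 1)) * δ ≤ θ * (b : ℝ) ^ (r + 1) := by
    calc ((m' : ℝ) + (r + 2) * (r + 1)) * δ
        ≤ (2 * θ' * b) * (C' * (b : ℝ) ^ r) := by
          apply mul_le_mul _ g5 hδ0 (by positivity)
          linarith
      _ = θ * (b : ℝ) ^ (r + 1) := by
          rw [hθ'def, pow_succ]
          field_simp
  have hog : (0 : ℝ) ≤ og D B x := Nat.cast_nonneg _
  nlinarith

end Pool.Agent.Lib.MP_20855c_co.LB
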