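import Mathlib

/-!
# MP_20855c_co, large b: the explicit threshold
-/

set_option autoImplicit false

namespace Pool.Agent.Lib.MP_20855c_co.LB

/-- The numbers: everything is at most a power of `Z = 100 (r + 4)` with exponent at most `(r + 5) ^ 3`. -/
theorem nums (r : ℕ) (Z ε δ θ W : ℝ) (K : ℕ) (hZ : Z = 100 * (r + 2 + 2 : ℕ)) (hε : ε = 1 / Z ^ (r + 10))
    (hδ : δ = (ε / 2) ^ (r + 1) / ((r + 1).factorial : ℝ)) (hK : K = 16 ^ (r + 3) * (r + 2)) (hθ : θ = δ / (32 * ((r : ℝ) + 2) ^ 2))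
    (hW : W = 4 * (K * ((r : ℝ) + 2)) * 2 ^ r) (b : ℝ) (hb : ∀ e ≤ (r + 5) ^ 3, Z ^ e ≤ b) :
    0 < δ ∧ δ * ((r + 2).factorial : ℝ) ≤ 1 ∧ ((r : ℝ) + 2) ^ 3 * (2 * K) ≤ b ∧ ((r + 1).factorial : ℝ) * W * (2 * W / θ) ^ (r + 1) ≤ b ∧
    (1 + ((r : ℝ) + 2) * (r + 1)) * (2 * W / θ) ≤ b ∧
    3 * ((r : ℝ) + 2) ^ 2 + ((r : ℝ) + 17) + 2 ^ (r + 2) * ((r + 2).factorial : ℝ) +
      (16 * ((r : ℝ) + 2) ^ 2 * (K + 1) * 2 ^ (r + 1)) / δ + (4 * ((r : ℝ) + 2) * 2 ^ r) / δ ≤ b ∧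
    2 / ε < b ∧ ((r + 2).factorial : ℝ) * (δ + 1) / ε ^ (r + 2) < b := by
  obtain ⟨u, hu⟩ : ∃ u : ℝ, u = (r : ℝ) + 2 := ⟨_, rfl⟩
  have hr0 : (0 : ℝ) ≤ r := Nat.cast_nonneg r
  have hu2 : 2 ≤ u := by linarith
  have hZu : Z = 100 * (u + 2) := by rw [hZ, hu]; push_cast; ring
  have hZ100 : 400 ≤ Z := by linarith
  have hZ1 : 1 ≤ Z := by linarith
  have hZ0 : 0 < Z := by linarith
  have huZ : u ≤ Z := by linarith
  have hu0 : 0 < u := by linarith
  have hε0 : 0 < ε := by rw [hε]; positivity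
  have hmono : ∀ m n : ℕ, m ≤ n → Z ^ m ≤ Z ^ n := fun m n h => pow_le_pow_right₀ hZ1 h
  -- factorials
  have hfac : ∀ n : ℕ, n ≤ r + 2 → ((n.factorial : ℕ) : ℝ) ≤ Z ^ n := by
    intro n hn
    have h1 : ((n.factorial : ℕ) : ℝ) ≤ (n : ℝ) ^ n := by exact_mod_cast Nat.factorial_le_pow n
    refine h1.trans (pow_le_pow_left₀ (Nat.cast_nonneg _) ?_ _)
    have : (n : ℝ) ≤ ((r + 2 : ℕ) : ℝ) := by exact_mod_cast hn
    push_cast at this
    linarith
  have hf1 : (0 : ℝ) < ((r + 1).factorial : ℝ) := by exact_mod_cast Nat.factorial_pos _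
  have hf2 : (0 : ℝ) < ((r + 2).factorial : ℝ) := by exact_mod_cast Nat.factorial_pos _
  have hδ0 : 0 < δ := by rw [hδ]; positivity
  -- 1 / δ
  have hδi : 1 / δ ≤ Z ^ ((r + 12) * (r + 1)) := by
    have h1 : 1 / δ = (2 * Z ^ (r + 10)) ^ (r + 1) * ((r + 1).factorial : ℝ) := by
      have h2 : ε / 2 = 1 / (2 * Z ^ (r + 10)) := by rw [hε]; field_simp
      rw [hδ, h2, one_div_div, div_eq_mul_inv, one_div, inv_pow, inv_inv, mul_comm]
    have h3 : 2 * Z ^ (r + 10) ≤ Z ^ (r + 11) := by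
      rw [pow_succ Z (r + 10), mul_comm]
      exact mul_le_mul_of_nonneg_left (by linarith) (by positivity)
    rw [h1]
    calc (2 * Z ^ (r + 10)) ^ (r + 1) * ((r + 1).factorial : ℝ) ≤ (Z ^ (r + 11)) ^ (r + 1) * Z ^ (r + 1) := by
          apply mul_le_mul (pow_le_pow_left₀ (by positivity) h3 _) (hfac _ (by omega)) hf1.le (by positivity)
      _ = Z ^ ((r + 12) * (r + 1)) := by
          rw [← pow_mul, ← pow_add]
          congr 1
          ring
  have hKr : (K : ℝ) = 16 ^ (r + 3) * u := by rw [hK, hu]; push_cast; ring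
  have hK0 : (0 : ℝ) < K := by rw [hKr]; positivity
  have hK1 : (1 : ℝ) ≤ K := by
    have : 1 ≤ K := by
      rw [hK]
      exact Nat.one_le_iff_ne_zero.2 (by positivity)
    exact_mod_cast this
  have h16 : (16 : ℝ) ^ (r + 3) ≤ Z ^ (r + 3) := pow_le_pow_left₀ (by norm_num) (by linarith) _
  have hWr : W = 4 * u ^ 2 * (16 ^ (r + 3) * 2 ^ r) := by rw [hW, hKr, ← hu]; ring
  have hWb : W ≤ Z ^ (r + 5) := by
    have h1 : (16 : ℝ) ^ (r + 3) * 2 ^ r ≤ Z ^ (r + 3) := by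
      have h2 : (2 : ℝ) ^ r ≤ 2 ^ (r + 3) := pow_le_pow_right₀ (by norm_num) (by omega)
      calc (16 : ℝ) ^ (r + 3) * 2 ^ r ≤ 16 ^ (r + 3) * 2 ^ (r + 3) := mul_le_mul_of_nonneg_left h2 (by positivity)
        _ = 32 ^ (r + 3) := by rw [← mul_pow]; norm_num
        _ ≤ Z ^ (r + 3) := pow_le_pow_left₀ (by norm_num) (by linarith) _
    have h3 : 4 * u ^ 2 ≤ Z ^ 2 := by rw [hZu]; nlinarith
    rw [hWr]
    calc 4 * u ^ 2 * (16 ^ (r + 3) * 2 ^ r) ≤ Z ^ 2 * Z ^ (r + 3) := mul_le_mul h3 h1 (by positivity) (by positivity)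
      _ = Z ^ (r + 5) := by rw [← pow_add]; congr 1; ring
  have hW0 : 0 < W := by rw [hWr]; positivity
  have hθ0 : 0 < θ := by rw [hθ]; positivity
  -- 2 W / θ
  have hT : 2 * W / θ ≤ Z ^ (r ^ 2 + 14 * r + 19) := by
    have h1 : 2 * W / θ = 64 * u ^ 2 * (W * (1 / δ)) := by
      rw [hθ, ← hu]
      field_simp
      ring
    have h3 : 64 * u ^ 2 ≤ Z ^ 2 := by rw [hZu]; nlinarith
    rw [h1]
    calc 64 * u ^ 2 * (W * (1 / δ)) ≤ Z ^ 2 * (Z ^ (r + 5) * Z ^ ((r + 12) * (r + 1))) := by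
          apply mul_le_mul h3 (mul_le_mul hWb hδi (by positivity) (by positivity)) (by positivity) (by positivity)
      _ = Z ^ (r ^ 2 + 14 * r + 19) := by
          rw [← pow_add, ← pow_add]
          congr 1
          ring
  have hT0 : 0 < 2 * W / θ := by positivity
  have hWδ : W * (1 / δ) ≤ Z ^ (r ^ 2 + 14 * r + 17) := by
    calc W * (1 / δ) ≤ Z ^ (r + 5) * Z ^ ((r + 12) * (r + 1)) := mul_le_mul hWb hδi (by positivity) (by positivity)
      _ = _ := by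
          rw [← pow_add]
          congr 1
          ring
  have hWδ0 : 0 < W * (1 / δ) := by positivity
  have hcube : (r + 5) ^ 3 = r ^ 3 + 15 * r ^ 2 + 75 * r + 125 := by ring
  have hr3 : 0 ≤ r ^ 3 := Nat.zero_le _
  have hr2 : 0 ≤ r ^ 2 := Nat.zero_le _
  refine ⟨hδ0, ?_, ?_, ?_, ?_, ?_, ?_, ?_⟩
  · -- δ (r + 2)! ≤ 1
    have h1 : ((r + 2).factorial : ℝ) = u * ((r + 1).factorial : ℝ) := by
      rw [Nat.factorial_succ, hu]
      push_cast
      ring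
    have h2 : δ * ((r + 2).factorial : ℝ) = (ε / 2) ^ (r + 1) * u := by
      rw [h1, hδ]
      field_simp
    have hεZ : ε ≤ 1 / Z := by
      rw [hε]
      apply one_div_le_one_div_of_le hZ0
      calc Z = Z ^ 1 := (pow_one Z).symm
        _ ≤ Z ^ (r + 10) := hmono _ _ (by omega)
    have hε1 : ε / 2 ≤ 1 := by
      have : 1 / Z ≤ 1 := by rw [div_le_one hZ0]; exact hZ1
      linarith
    have h3 : (ε / 2) ^ (r + 1) ≤ ε / 2 := by
      calc (ε / 2) ^ (r + 1) ≤ (ε / 2) ^ 1 := pow_le_pow_of_le_one (by positivity) hε1 (by omega)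
        _ = ε / 2 := pow_one _
    rw [h2]
    have h4 : ε / 2 * u ≤ 1 := by
      have h5 : ε * Z ≤ 1 := by
        calc ε * Z ≤ 1 / Z * Z := mul_le_mul_of_nonneg_right hεZ hZ0.le
          _ = 1 := by field_simp
      nlinarith
    calc (ε / 2) ^ (r + 1) * u ≤ ε / 2 * u := mul_le_mul_of_nonneg_right h3 hu0.le
      _ ≤ 1 := h4
  · rw [← hu, hKr]
    have h1 : u ^ 3 * (2 * (16 ^ (r + 3) * u)) = (2 * u ^ 4) * 16 ^ (r + 3) := by ring
    rw [h1]
    have h2 : 2 * u ^ 4 ≤ Z ^ 4 := by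
      have h3 : (2 * u) ^ 4 ≤ Z ^ 4 := pow_le_pow_left₀ (by positivity) (by linarith) _
      have h4 : (2 * u) ^ 4 = 16 * u ^ 4 := by ring
      have h5 : 0 < u ^ 4 := by positivity
      linarith
    calc (2 * u ^ 4) * 16 ^ (r + 3) ≤ Z ^ 4 * Z ^ (r + 3) := mul_le_mul h2 h16 (by positivity) (by positivity)
      _ = Z ^ (r + 7) := by rw [← pow_add]; congr 1; ring
      _ ≤ b := hb _ (by rw [hcube]; omega)
  · calc ((r + 1).factorial : ℝ) * W * (2 * W / θ) ^ (r + 1)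
        ≤ Z ^ (r + 1) * Z ^ (r + 5) * (Z ^ (r ^ 2 + 14 * r + 19)) ^ (r + 1) := by
          apply mul_le_mul (mul_le_mul (hfac _ (by omega)) hWb hW0.le (by positivity)) (pow_le_pow_left₀ hT0.le hT _) (by positivity) (by positivity)
      _ = Z ^ (r ^ 3 + 15 * r ^ 2 + 35 * r + 25) := by
          rw [← pow_mul, ← pow_add, ← pow_add]
          congr 1
          ring
      _ ≤ b := hb _ (by rw [hcube]; omega)
  · have h1 : 1 + ((r : ℝ) + 2) * (r + 1) ≤ Z ^ 2 := by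
      rw [hZu, hu]
      nlinarith
    calc (1 + ((r : ℝ) + 2) * (r + 1)) * (2 * W / θ) ≤ Z ^ 2 * Z ^ (r ^ 2 + 14 * r + 19) :=
          mul_le_mul h1 hT hT0.le (by positivity)
      _ = Z ^ (r ^ 2 + 14 * r + 21) := by rw [← pow_add]; congr 1; ring
      _ ≤ b := hb _ (by rw [hcube]; omega)
  · have hP : ∀ e ≤ r ^ 2 + 14 * r + 18, Z ^ e ≤ Z ^ (r ^ 2 + 14 * r + 18) := fun e he => hmono _ _ he
    have t1 : 3 * ((r : ℝ) + 2) ^ 2 ≤ Z ^ (r ^ 2 + 14 * r + 18) := by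
      refine le_trans ?_ (hP 2 (by omega))
      rw [hZu, hu]
      nlinarith
    have t2 : (r : ℝ) + 17 ≤ Z ^ (r ^ 2 + 14 * r + 18) := by
      refine le_trans ?_ (hP 1 (by omega))
      rw [hZu, hu]
      linarith
    have t3 : 2 ^ (r + 2) * ((r + 2).factorial : ℝ) ≤ Z ^ (r ^ 2 + 14 * r + 18) := by
      have h1 : (2 : ℝ) ^ (r + 2) ≤ Z ^ (r + 2) := pow_le_pow_left₀ (by norm_num) (by linarith) _
      calc 2 ^ (r + 2) * ((r + 2).factorial : ℝ) ≤ Z ^ (r + 2) * Z ^ (r + 2) :=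
            mul_le_mul h1 (hfac _ le_rfl) hf2.le (by positivity)
        _ = Z ^ (2 * r + 4) := by rw [← pow_add]; congr 1; ring
        _ ≤ _ := hP _ (by omega)
    have t4 : (16 * ((r : ℝ) + 2) ^ 2 * (K + 1) * 2 ^ (r + 1)) / δ ≤ Z ^ (r ^ 2 + 14 * r + 18) := by
      have h1 : (16 * ((r : ℝ) + 2) ^ 2 * (K + 1) * 2 ^ (r + 1)) / δ ≤ 16 * u * (W * (1 / δ)) := by
        rw [hW, ← hu, mul_one_div, mul_div_assoc']
        apply div_le_div_of_nonneg_right _ hδ0.le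
        have h2 : (K : ℝ) + 1 ≤ 2 * K := by linarith
        calc 16 * u ^ 2 * ((K : ℝ) + 1) * 2 ^ (r + 1) ≤ 16 * u ^ 2 * (2 * K) * 2 ^ (r + 1) := by
              apply mul_le_mul_of_nonneg_right _ (by positivity)
              exact mul_le_mul_of_nonneg_left h2 (by positivity)
          _ = 16 * u * (4 * (K * u) * 2 ^ r) := by ring
      refine h1.trans ?_
      calc 16 * u * (W * (1 / δ)) ≤ Z * Z ^ (r ^ 2 + 14 * r + 17) := mul_le_mul (by linarith) hWδ hWδ0.le hZ0.le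
        _ = Z ^ (r ^ 2 + 14 * r + 18) := by rw [← pow_succ']
    have t5 : (4 * ((r : ℝ) + 2) * 2 ^ r) / δ ≤ Z ^ (r ^ 2 + 14 * r + 18) := by
      have h1 : (4 * ((r : ℝ) + 2) * 2 ^ r) / δ ≤ W * (1 / δ) := by
        rw [hW, ← hu, mul_one_div]
        apply div_le_div_of_nonneg_right _ hδ0.le
        apply mul_le_mul_of_nonneg_right _ (by positivity)
        nlinarith
      exact h1.trans (hWδ.trans (hP _ (by omega)))
    have t6 : 5 * Z ^ (r ^ 2 + 14 * r + 18) ≤ Z ^ (r ^ 2 + 14 * r + 19) := by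
      rw [pow_succ Z (r ^ 2 + 14 * r + 18), mul_comm]
      exact mul_le_mul_of_nonneg_left (by linarith) (by positivity)
    have t7 := hb (r ^ 2 + 14 * r + 19) (by rw [hcube]; omega)
    linarith
  · have h1 : 2 / ε = 2 * Z ^ (r + 10) := by rw [hε]; field_simp
    have h2 : 2 * Z ^ (r + 10) < Z ^ (r + 11) := by
      rw [pow_succ Z (r + 10), mul_comm]
      exact mul_lt_mul_of_pos_left (by linarith) (by positivity)
    rw [h1]
    exact lt_of_lt_of_le h2 (hb _ (by rw [hcube]; omega))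
  · have hδ1 : δ ≤ 1 := by
      rw [hδ, div_le_one hf1]
      have h0 : ε / 2 ≤ 1 := by
        have : ε ≤ 1 := by
          rw [hε, div_le_one (by positivity)]
          exact one_le_pow₀ hZ1
        linarith
      have h1 : (ε / 2) ^ (r + 1) ≤ 1 := pow_le_one₀ (by positivity) h0
      have h2 : (1 : ℝ) ≤ ((r + 1).factorial : ℝ) := by exact_mod_cast Nat.factorial_pos _
      linarith
    have h1 : ((r + 2).factorial : ℝ) * (δ + 1) / ε ^ (r + 2) = ((r + 2).factorial : ℝ) * (δ + 1) * Z ^ ((r + 10) * (r + 2)) := by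
      rw [hε, one_div, inv_pow, div_inv_eq_mul, ← pow_mul]
    rw [h1]
    calc ((r + 2).factorial : ℝ) * (δ + 1) * Z ^ ((r + 10) * (r + 2))
        ≤ Z ^ (r + 2) * 2 * Z ^ ((r + 10) * (r + 2)) := by
          apply mul_le_mul_of_nonneg_right _ (by positivity)
          exact mul_le_mul (hfac _ le_rfl) (by linarith) (by linarith) (by positivity)
      _ < Z ^ (r + 2) * Z * Z ^ ((r + 10) * (r + 2)) := by
          apply mul_lt_mul_of_pos_right _ (by positivity)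
          exact mul_lt_mul_of_pos_left (by linarith) (by positivity)
      _ = Z ^ (r ^ 2 + 13 * r + 23) := by
          rw [← pow_succ, ← pow_add]
          congr 1
          ring
      _ ≤ b := hb _ (by rw [hcube]; omega)

end Pool.Agent.Lib.MP_20855c_co.LB
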